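import Pool.Agent.Helper40K9.SR.Invol

/-! Steiner systems and reflections: abelian groups with inversion -/

set_option autoImplicit false
set_option linter.unusedSectionVars false

open Finset

namespace Pool.Agent.Helper40K9.SR

variable {G : Type*} [AddCommGroup G] [DecidableEq G]

lemma two_zero [Fintype G] (hG : Odd (Fintype.card G)) (x : G) (hx : x + x = 0) : x = 0 := by
  have h1 : addOrderOf x ∣ 2 := addOrderOf_dvd_of_nsmul_eq_zero (by rw [two_nsmul, hx])
  have h2 : addOrderOf x ∣ Fintype.card G := addOrderOf_dvd_card
  have h3 : addOrderOf x ∣ 1 := by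
    have : Nat.gcd 2 (Fintype.card G) = 1 := by
      rw [← Nat.Coprime]
      exact (Nat.coprime_two_left).2 hG
    rw [← this]
    exact Nat.dvd_gcd h1 h2
  exact AddMonoid.addOrderOf_eq_one_iff.1 (Nat.dvd_one.1 h3)

lemma zsmul_inj (y : G) (i j : ℤ) (h : i • y = j • y) : ((addOrderOf y : ℕ) : ℤ) ∣ i - j := by
  rw [addOrderOf_dvd_iff_zsmul_eq_zero, sub_zsmul, h, add_neg_cancel]

/-- An abelian group of odd order and the inversion, acting on the elements of the group. -/
theorem abel_one [Fintype G] (hG : Odd (Fintype.card G)) {t k : ℕ} {𝓑 : Set (Finset G)}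
    (h : IsSteiner t k 𝓑) (htk : t < k) (htG : t ≤ Fintype.card G)
    (htr : ∀ g : G, Pres 𝓑 (fun x => x + g)) (hneg : Pres 𝓑 (fun x => -x)) :
    k ≡ t [MOD 2] ∨ (Even t ∧ ∀ x : G, addOrderOf x ≤ k) := by
  have hrefl : ∀ y : G, Pres 𝓑 (fun x => y - x) := by
    intro y B hB
    have := htr y _ (hneg B hB)
    rw [image_image] at this
    convert this using 2
    ext x
    simp only [Function.comp_apply]
    abel
  have hfa : ∀ x : G, -x = x ↔ x = 0 := fun x => by
    constructor
    · intro hx
      refine two_zero hG x ?_
      nth_rewrite 1 [← hx]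
      exact neg_add_cancel x
    · rintro rfl; exact neg_zero
  rcases Nat.even_or_odd' t with ⟨s, rfl | rfl⟩
  · by_cases hk : Even k
    · left
      rw [Nat.ModEq]
      obtain ⟨j, rfl⟩ := hk
      omega
    · right
      refine ⟨by simp, fun y => ?_⟩
      rw [Nat.not_even_iff_odd] at hk
      by_contra hcon
      push Not at hcon
      obtain ⟨B, hB, hall⟩ := chain_one h hk (fun x => -x) (fun x => y + y - x) (fun x => neg_neg x)
        (fun x => by abel) hneg (hrefl (y + y)) (fun i => i • y) (fun x => by
          simp only [zero_smul]; exact hfa x) (fun x => by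
          simp only [one_smul]
          constructor
          · intro hx
            have h1 : (x - y) + (x - y) = 0 := by
              have h2 : y + y = x + x := by
                nth_rewrite 1 [← hx]; abel
              rw [sub_add_sub_comm, h2, sub_self]
            exact sub_eq_zero.1 (two_zero hG _ h1)
          · rintro rfl; abel) (fun i => by simp only [neg_smul]) (fun i => by
          simp only [sub_smul, two_smul]) (addOrderOf y) (by omega) (fun i j => zsmul_inj y i j)
      obtain ⟨S, hS, hSc, -⟩ := card_ge_of_range (fun i j => zsmul_inj y i j) hall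
      have h3 := card_le_card hS
      rw [h.card B hB] at h3
      omega
  · left
    have h1 : ∀ x ∈ (univ.erase 0 : Finset G), -x ∈ univ.erase 0 := by
      intro x hx
      rw [mem_erase] at hx ⊢
      exact ⟨fun hc => hx.1 (neg_eq_zero.1 hc), mem_univ _⟩
    obtain ⟨Z, hZ, hZa, hZc⟩ := exists_inv (fun x : G => -x) neg_neg (univ.erase 0) h1
      (fun x hx hc => (mem_erase.1 hx).1 ((hfa x).1 hc)) s (by
        rw [card_erase_of_mem (mem_univ _), card_univ]; omega)
    have hc : (insert 0 Z).card = 2 * s + 1 := by
      rw [card_insert_of_notMem (fun hc => (mem_erase.1 (hZ hc)).1 rfl), hZc]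
    obtain ⟨B, ⟨hB, hTB⟩, -⟩ := h.unique _ hc
    have hBa : ∀ x ∈ B, -x ∈ B := by
      refine h.stab hneg neg_injective hB hc.ge hTB ?_
      intro x hx
      rcases mem_insert.1 hx with rfl | hx
      · rw [neg_zero]; exact hTB (mem_insert_self _ _)
      · exact hTB (mem_insert_of_mem (hZa x hx))
    have := (odd_iff_one (fun x : G => -x) neg_neg 0 hfa B hBa).2 (hTB (mem_insert_self _ _))
    rw [h.card B hB] at this
    obtain ⟨j, rfl⟩ := this
    rw [Nat.ModEq]
    omega

/-- An abelian group of odd order and the inversion, acting on the elements of the group and one more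
point. -/
theorem abel_two [Fintype G] (hG : Odd (Fintype.card G)) {t k : ℕ} {𝓑 : Set (Finset (Option G))}
    (h : IsSteiner t k 𝓑) (ht : 0 < t) (htk : t < k) (htG : t ≤ Fintype.card G + 1)
    (htr : ∀ g : G, Pres 𝓑 (Option.map (fun x => x + g))) (hneg : Pres 𝓑 (Option.map (fun x => -x))) :
    k ≡ t [MOD 2] ∨ (Odd t ∧ ∀ x : G, addOrderOf x + 1 ≤ k) := by
  have hrefl : ∀ y : G, Pres 𝓑 (Option.map (fun x => y - x)) := by
    intro y B hB
    have := htr y _ (hneg B hB)
    rw [image_image] at this
    convert this using 2
    ext x : 1
    cases x with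
    | none => simp
    | some x =>
      simp only [Function.comp_apply, Option.map_some]
      congr 1
      abel
  have hfa : ∀ x : G, -x = x ↔ x = 0 := fun x => by
    constructor
    · intro hx
      refine two_zero hG x ?_
      nth_rewrite 1 [← hx]
      exact neg_add_cancel x
    · rintro rfl; exact neg_zero
  have hA : ∀ x : Option G, Option.map (fun x => -x) (Option.map (fun x => -x) x) = x := by
    intro x
    cases x <;> simp
  have hFA : ∀ x : Option G, Option.map (fun x => -x) x = x ↔ x = none ∨ x = some 0 := by
    intro x
    cases x with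
    | none => simp
    | some x => simp only [Option.map_some, Option.some.injEq, reduceCtorEq, false_or]; exact hfa x
  rcases Nat.even_or_odd' t with ⟨s, rfl | rfl⟩
  · left
    have h1 : ∀ x ∈ ((univ.erase (some 0)).erase none : Finset (Option G)),
        Option.map (fun x => -x) x ∈ ((univ.erase (some 0)).erase none : Finset (Option G)) := by
      intro x hx
      rw [mem_erase, mem_erase] at hx ⊢
      cases x with
      | none => exact absurd rfl hx.1
      | some x =>
        refine ⟨by simp, fun hc => hx.2.1 ?_, mem_univ _⟩
        rw [Option.map_some, Option.some.injEq, neg_eq_zero] at hc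
        rw [hc]
    obtain ⟨Z, hZ, hZa, hZc⟩ := exists_inv _ hA ((univ.erase (some 0)).erase none) h1
      (fun x hx hc => by
        rw [mem_erase, mem_erase] at hx
        rcases (hFA x).1 hc with h | h
        · exact hx.1 h
        · exact hx.2.1 h) (s - 1) (by
        rw [card_erase_of_mem (by simp), card_erase_of_mem (mem_univ _), card_univ,
          Fintype.card_option]; omega)
    have hαZ : some (0 : G) ∉ Z := fun hc => by
      have := hZ hc
      rw [mem_erase, mem_erase] at this
      exact this.2.1 rfl
    have hoZ : none ∉ insert (some (0 : G)) Z := fun hc => by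
      rcases mem_insert.1 hc with hc | hc
      · simp at hc
      · have := hZ hc
        rw [mem_erase] at this
        exact this.1 rfl
    have hc : (insert none (insert (some (0 : G)) Z)).card = 2 * s := by
      rw [card_insert_of_notMem hoZ, card_insert_of_notMem hαZ, hZc]; omega
    obtain ⟨B, ⟨hB, hTB⟩, -⟩ := h.unique _ hc
    have hoB : none ∈ B := hTB (mem_insert_self _ _)
    have hαB : some 0 ∈ B := hTB (mem_insert_of_mem (mem_insert_self _ _))
    have hBa : ∀ x ∈ B, Option.map (fun x => -x) x ∈ B := by
      refine h.stab hneg (image_invol_mem _ hA) hB hc.ge hTB ?_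
      intro x hx
      rcases mem_insert.1 hx with rfl | hx
      · exact hoB
      rcases mem_insert.1 hx with rfl | hx
      · simpa using hαB
      · exact hTB (mem_insert_of_mem (mem_insert_of_mem (hZa x hx)))
    have := (even_two _ hA none (some 0) (by simp) hFA B hBa).2 ⟨fun _ => hαB, fun _ => hoB⟩
    rw [h.card B hB] at this
    obtain ⟨j, rfl⟩ := this
    rw [Nat.ModEq]
    omega
  · by_cases hk : Even k
    · right
      refine ⟨by simp, fun y => ?_⟩
      by_contra hcon
      push Not at hcon
      obtain ⟨B, hB, hoB, hall⟩ := chain_two h hk (Option.map (fun x => -x))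
        (Option.map (fun x => y + y - x)) hA
        (fun x => by
          cases x with
          | none => rfl
          | some x =>
            simp only [Option.map_some]
            congr 1
            abel) hneg (hrefl (y + y)) none (fun i => some (i • y)) (fun i => by simp)
        (fun x => by simp only [zero_smul]; exact hFA x) (fun x => by
          simp only [one_smul]
          cases x with
          | none => simp
          | some x =>
            simp only [Option.map_some, Option.some.injEq, reduceCtorEq, false_or]
            constructor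
            · intro hx
              have h1 : (x - y) + (x - y) = 0 := by
                have h2 : y + y = x + x := by
                  nth_rewrite 1 [← hx]; abel
                rw [sub_add_sub_comm, h2, sub_self]
              exact sub_eq_zero.1 (two_zero hG _ h1)
            · rintro rfl; abel) (fun i => by simp only [Option.map_some, neg_smul]) (fun i => by
          simp only [Option.map_some, sub_smul, two_smul]) (addOrderOf y) (by omega)
        (fun i j hij => zsmul_inj y i j (Option.some.inj hij))
      obtain ⟨S, hS, hSc, hSφ⟩ := card_ge_of_range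
        (fun i j hij => zsmul_inj y i j (Option.some.inj hij)) hall
      have h3 : (insert none S).card ≤ B.card := card_le_card (insert_subset hoB hS)
      rw [card_insert_of_notMem (fun hc => by
        obtain ⟨i, hi⟩ := hSφ _ hc
        simp at hi), h.card B hB] at h3
      omega
    · left
      rw [Nat.not_even_iff_odd] at hk
      obtain ⟨j, rfl⟩ := hk
      rw [Nat.ModEq]
      omega

/-- Subgroups with `t / 2` elements. -/
theorem abel_sub [Fintype G] {t k : ℕ} {𝓑 : Set (Finset G)}
    (h : IsSteiner t k 𝓑) (htk : t < k)
    (htr : ∀ g : G, Pres 𝓑 (fun x => x + g)) (hneg : Pres 𝓑 (fun x => -x))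
    (H : AddSubgroup G) (hH : t = 2 * Nat.card H) (y : G) :
    addOrderOf (y : G ⧸ H) * Nat.card H ≤ k := by
  classical
  have hrefl : ∀ y : G, Pres 𝓑 (fun x => y - x) := by
    intro y B hB
    have := htr y _ (hneg B hB)
    rw [image_image] at this
    convert this using 2
    ext x
    simp only [Function.comp_apply]
    abel
  have hHk : Nat.card H ≤ k := by omega
  by_cases hy : y ∈ H
  · have : addOrderOf (y : G ⧸ H) = 1 := by
      rw [AddMonoid.addOrderOf_eq_one_iff]
      exact (QuotientAddGroup.eq_zero_iff y).2 hy
    rw [this, one_mul]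
    exact hHk
  -- cosets
  let co : G → Finset G := fun z => univ.filter (fun x => x - z ∈ H)
  have hco : ∀ z x, x ∈ co z ↔ x - z ∈ H := fun z x => by simp [co]
  have hcc : ∀ z, (co z).card = Nat.card H := by
    intro z
    have h1 : co z = (univ.filter (fun x => x ∈ H)).image (fun x => x + z) := by
      ext x
      rw [hco, mem_image]
      constructor
      · intro hx
        exact ⟨x - z, by simpa using hx, by abel⟩
      · rintro ⟨x', hx', rfl⟩
        simpa using hx'
    rw [h1, card_image_of_injective _ (add_left_injective z), Nat.card_eq_fintype_card,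
      Fintype.card_subtype]
  have hdis : ∀ z w, z - w ∉ H → Disjoint (co z) (co w) := by
    intro z w hzw
    rw [Finset.disjoint_left]
    intro x hx hx'
    rw [hco] at hx hx'
    apply hzw
    have := H.sub_mem hx' hx
    convert this using 1
    abel
  have htwo : ∀ z w, z - w ∉ H → (co z ∪ co w).card = t := by
    intro z w hzw
    rw [card_union_of_disjoint (hdis z w hzw), hcc, hcc, hH]
    ring
  have hy0 : (0 : G) - y ∉ H := by rwa [zero_sub, H.neg_mem_iff]
  obtain ⟨B, ⟨hB, hTB⟩, -⟩ := h.unique _ (htwo 0 y hy0)
  -- invariance under `H`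
  have hBH : ∀ g ∈ H, ∀ x ∈ B, x + g ∈ B := by
    intro g hg
    refine h.stab (htr g) (add_left_injective g) hB (htwo 0 y hy0).ge hTB ?_
    intro x hx
    refine hTB ?_
    rw [mem_union, hco, hco] at hx ⊢
    rcases hx with hx | hx
    · left
      have := H.add_mem hx hg
      convert this using 1
      abel
    · right
      have := H.add_mem hx hg
      convert this using 1
      abel
  -- a further point
  obtain ⟨w, hw, hwT⟩ : ∃ w ∈ B, w ∉ co 0 ∪ co y := by
    by_contra hcon
    push Not at hcon
    have h1 := card_le_card (show B ⊆ co 0 ∪ co y from hcon)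
    rw [htwo 0 y hy0, h.card B hB] at h1
    omega
  rw [mem_union, not_or, hco, hco] at hwT
  have hwB : co w ⊆ B := by
    intro x hx
    rw [hco] at hx
    have := hBH _ hx w hw
    convert this using 1
    abel
  have h0B : co 0 ⊆ B := subset_union_left.trans hTB
  have hyB : co y ⊆ B := subset_union_right.trans hTB
  have hr1 : ∀ x ∈ B, w - x ∈ B := by
    refine h.stab (hrefl w) (sub_right_injective) hB
      (htwo w 0 hwT.1).ge (union_subset hwB h0B) ?_
    intro x hx
    rw [mem_union, hco, hco] at hx
    rcases hx with hx | hx
    · refine h0B ((hco _ _).2 ?_)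
      have := H.neg_mem hx
      convert this using 1
      abel
    · refine hwB ((hco _ _).2 ?_)
      have := H.neg_mem hx
      convert this using 1
      abel
  have hr2 : ∀ x ∈ B, y + w - x ∈ B := by
    refine h.stab (hrefl (y + w)) (sub_right_injective) hB
      (htwo w y hwT.2).ge (union_subset hwB hyB) ?_
    intro x hx
    rw [mem_union, hco, hco] at hx
    rcases hx with hx | hx
    · refine hyB ((hco _ _).2 ?_)
      have := H.neg_mem hx
      convert this using 1
      abel
    · refine hwB ((hco _ _).2 ?_)
      have := H.neg_mem hx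
      convert this using 1
      abel
  have hty : ∀ x ∈ B, x + y ∈ B := by
    intro x hx
    have := hr2 _ (hr1 x hx)
    convert this using 1
    abel
  have hny : ∀ (n : ℕ), n • y ∈ B := by
    intro n
    induction n with
    | zero =>
      rw [zero_smul]
      exact h0B ((hco _ _).2 (by simp))
    | succ n ih =>
      rw [succ_nsmul]
      exact hty _ ih
  have hinj : Function.Injective
      (fun p : Fin (addOrderOf (y : G ⧸ H)) × H => (p.1 : ℕ) • y + (p.2 : G)) := by
    rintro ⟨i, g⟩ ⟨j, g'⟩ hij
    simp only at hij
    have h1 : ((i : ℕ) • (y : G ⧸ H)) = (j : ℕ) • (y : G ⧸ H) := by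
      have h2 := congrArg (QuotientAddGroup.mk : G → G ⧸ H) hij
      rw [QuotientAddGroup.mk_add, QuotientAddGroup.mk_add, QuotientAddGroup.mk_nsmul,
        QuotientAddGroup.mk_nsmul, (QuotientAddGroup.eq_zero_iff (g : G)).2 g.2,
        (QuotientAddGroup.eq_zero_iff (g' : G)).2 g'.2, add_zero, add_zero] at h2
      exact h2
    have h2 : (i : ℕ) = j := by
      have h3 := nsmul_injOn_Iio_addOrderOf (x := (y : G ⧸ H)) (show (i : ℕ) ∈ Set.Iio _ from i.2)
        (show (j : ℕ) ∈ Set.Iio _ from j.2) h1
      exact h3
    have h4 : i = j := Fin.ext h2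
    subst h4
    have h5 := add_left_cancel hij
    rw [Prod.mk.injEq]
    exact ⟨rfl, Subtype.ext h5⟩
  have h1 : Fintype.card (Fin (addOrderOf (y : G ⧸ H)) × H) ≤ B.card := by
    rw [← Finset.card_univ]
    refine card_le_card_of_injOn _ (fun p _ => ?_) (hinj.injOn)
    exact hBH _ p.2.2 _ (hny _)
  rw [Fintype.card_prod, Fintype.card_fin, h.card B hB, ← Nat.card_eq_fintype_card] at h1
  exact h1

end Pool.Agent.Helper40K9.SR
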