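import Pool.Agent.Helper40K9.SR.Core

/-! Steiner systems and reflections: the chain lemmas -/

set_option autoImplicit false

open Finset

namespace Pool.Agent.Helper40K9.SR

variable {X : Type*} [DecidableEq X] {k : ℕ} {𝓑 : Set (Finset X)}

lemma all_mem {a b : X → X} {φ : ℤ → X} (haφ : ∀ i, a (φ i) = φ (-i))
    (hbφ : ∀ i, b (φ i) = φ (2 - i)) {B : Finset X} (hBa : ∀ x ∈ B, a x ∈ B)
    (hBb : ∀ x ∈ B, b x ∈ B) (h0 : φ 0 ∈ B) (h1 : φ 1 ∈ B) : ∀ i, φ i ∈ B := by
  have hstep : ∀ i, φ i ∈ B → φ (i + 2) ∈ B := by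
    intro i hi
    have := hBb _ (hBa _ hi)
    rw [haφ, hbφ] at this
    convert this using 2
    ring
  have hnat : ∀ n : ℕ, φ n ∈ B ∧ φ (n + 1) ∈ B := by
    intro n
    induction n with
    | zero => exact ⟨by simpa using h0, by simpa using h1⟩
    | succ n ih =>
      refine ⟨by exact_mod_cast ih.2, ?_⟩
      have := hstep _ ih.1
      convert this using 2
      push_cast
      ring
  intro i
  rcases Int.eq_nat_or_neg i with ⟨n, rfl | rfl⟩
  · exact (hnat n).1
  · have := hBa _ (hnat n).1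
    rwa [haφ] at this

lemma inj_on {φ : ℤ → X} {ℓ : ℕ} (hinj : ∀ i j : ℤ, φ i = φ j → (ℓ : ℤ) ∣ i - j) {u v : ℤ}
    (h : v - u < ℓ) : Set.InjOn φ (Icc u v : Finset ℤ) := by
  intro i hi j hj hij
  rw [coe_Icc, Set.mem_Icc] at hi hj
  obtain ⟨c, hc⟩ := hinj i j hij
  have h1 : |i - j| < ℓ := by rw [abs_lt]; constructor <;> linarith
  rw [hc, abs_mul, Nat.abs_cast] at h1
  have h2 : |c| < 1 := by
    by_contra hcon
    push Not at hcon
    have : (ℓ : ℤ) * 1 ≤ ℓ * |c| := mul_le_mul_of_nonneg_left hcon (by positivity)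
    linarith
  have h3 : c = 0 := Int.abs_lt_one_iff.1 h2
  rw [h3, mul_zero] at hc
  linarith

/-- **Chain lemma**, involutions with one fixed point. -/
lemma chain_one {s : ℕ} (h : IsSteiner (2 * s) k 𝓑) (hk : Odd k) (a b : X → X)
    (ha : ∀ x, a (a x) = x) (hb : ∀ x, b (b x) = x) (pa : Pres 𝓑 a) (pb : Pres 𝓑 b)
    (φ : ℤ → X) (hfa : ∀ x, a x = x ↔ x = φ 0) (hfb : ∀ x, b x = x ↔ x = φ 1)
    (haφ : ∀ i, a (φ i) = φ (-i)) (hbφ : ∀ i, b (φ i) = φ (2 - i))
    (ℓ : ℕ) (hℓ : 2 * s + 1 ≤ ℓ) (hinj : ∀ i j : ℤ, φ i = φ j → (ℓ : ℤ) ∣ i - j) :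
    ∃ B ∈ 𝓑, ∀ i, φ i ∈ B := by
  have hIa : Set.InjOn φ (Icc (-(s : ℤ)) s : Finset ℤ) :=
    inj_on hinj (by have : ((2 * s + 1 : ℕ) : ℤ) ≤ ℓ := by exact_mod_cast hℓ
                    push_cast at this; linarith)
  have hIb : Set.InjOn φ (Icc (1 - (s : ℤ)) (1 + s) : Finset ℤ) :=
    inj_on hinj (by have : ((2 * s + 1 : ℕ) : ℤ) ≤ ℓ := by exact_mod_cast hℓ
                    push_cast at this; linarith)
  -- the block of the first set
  set S0 : Finset ℤ := (Icc (-(s : ℤ)) s).erase 0 with hS0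
  have hS0c : S0.card = 2 * s := by
    rw [hS0, card_erase_of_mem (by simp), Int.card_Icc]
    omega
  obtain ⟨B, ⟨hB, hTB⟩, -⟩ := h.unique (S0.image φ) (by
    rw [card_image_of_injOn (hIa.mono (by intro x hx; exact mem_of_mem_erase hx)), hS0c])
  have hBa : ∀ x ∈ B, a x ∈ B := by
    refine h.stab pa (image_invol_mem a ha) hB (T := S0.image φ) ?_ hTB ?_
    · rw [card_image_of_injOn (hIa.mono (by intro x hx; exact mem_of_mem_erase hx)), hS0c]
    · intro x hx
      obtain ⟨i, hi, rfl⟩ := mem_image.1 hx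
      rw [haφ]
      refine hTB (mem_image_of_mem _ ?_)
      rw [hS0, mem_erase, mem_Icc] at hi ⊢
      exact ⟨by simpa using hi.1, by omega⟩
  have h0 : φ 0 ∈ B := (odd_iff_one a ha _ hfa B hBa).1 (by rwa [h.card B hB])
  -- the block of the second set
  set S1 : Finset ℤ := (Icc (1 - (s : ℤ)) (1 + s)).erase 1 with hS1
  have hS1c : S1.card = 2 * s := by
    rw [hS1, card_erase_of_mem (by rw [mem_Icc]; omega), Int.card_Icc]
    omega
  obtain ⟨B', ⟨hB', hTB'⟩, -⟩ := h.unique (S1.image φ) (by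
    rw [card_image_of_injOn (hIb.mono (by intro x hx; exact mem_of_mem_erase hx)), hS1c])
  have hBb : ∀ x ∈ B', b x ∈ B' := by
    refine h.stab pb (image_invol_mem b hb) hB' (T := S1.image φ) ?_ hTB' ?_
    · rw [card_image_of_injOn (hIb.mono (by intro x hx; exact mem_of_mem_erase hx)), hS1c]
    · intro x hx
      obtain ⟨i, hi, rfl⟩ := mem_image.1 hx
      rw [hbφ]
      refine hTB' (mem_image_of_mem _ ?_)
      rw [hS1, mem_erase, mem_Icc] at hi ⊢
      exact ⟨fun h => hi.1 (by linarith), by omega⟩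
  have h1 : φ 1 ∈ B' := (odd_iff_one b hb _ hfb B' hBb).1 (by rwa [h.card B' hB'])
  -- they agree
  have hT : Set.InjOn φ (Icc (1 - (s : ℤ)) s : Finset ℤ) := hIa.mono (by
    intro x hx; rw [coe_Icc, Set.mem_Icc] at hx ⊢; omega)
  have hBB : B = B' := by
    refine h.eq hB hB' (T := (Icc (1 - (s : ℤ)) s).image φ) ?_ ?_ ?_
    · rw [card_image_of_injOn hT, Int.card_Icc]
      omega
    · intro x hx
      obtain ⟨i, hi, rfl⟩ := mem_image.1 hx
      rw [mem_Icc] at hi
      by_cases hi0 : i = 0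
      · rw [hi0]; exact h0
      · refine hTB (mem_image_of_mem _ ?_)
        rw [hS0, mem_erase, mem_Icc]
        exact ⟨hi0, by omega⟩
    · intro x hx
      obtain ⟨i, hi, rfl⟩ := mem_image.1 hx
      rw [mem_Icc] at hi
      by_cases hi0 : i = 1
      · rw [hi0]; exact h1
      · refine hTB' (mem_image_of_mem _ ?_)
        rw [hS1, mem_erase, mem_Icc]
        exact ⟨hi0, by omega⟩
  subst hBB
  exact ⟨B, hB, all_mem haφ hbφ hBa hBb h0 h1⟩

/-- **Chain lemma**, involutions with two fixed points, one of them in common. -/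
lemma chain_two {s : ℕ} (h : IsSteiner (2 * s + 1) k 𝓑) (hk : Even k) (a b : X → X)
    (ha : ∀ x, a (a x) = x) (hb : ∀ x, b (b x) = x) (pa : Pres 𝓑 a) (pb : Pres 𝓑 b)
    (o : X) (φ : ℤ → X) (ho : ∀ i, φ i ≠ o)
    (hfa : ∀ x, a x = x ↔ x = o ∨ x = φ 0) (hfb : ∀ x, b x = x ↔ x = o ∨ x = φ 1)
    (haφ : ∀ i, a (φ i) = φ (-i)) (hbφ : ∀ i, b (φ i) = φ (2 - i))
    (ℓ : ℕ) (hℓ : 2 * s + 1 ≤ ℓ) (hinj : ∀ i j : ℤ, φ i = φ j → (ℓ : ℤ) ∣ i - j) :
    ∃ B ∈ 𝓑, o ∈ B ∧ ∀ i, φ i ∈ B := by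
  have hIa : Set.InjOn φ (Icc (-(s : ℤ)) s : Finset ℤ) :=
    inj_on hinj (by have : ((2 * s + 1 : ℕ) : ℤ) ≤ ℓ := by exact_mod_cast hℓ
                    push_cast at this; linarith)
  have hIb : Set.InjOn φ (Icc (1 - (s : ℤ)) (1 + s) : Finset ℤ) :=
    inj_on hinj (by have : ((2 * s + 1 : ℕ) : ℤ) ≤ ℓ := by exact_mod_cast hℓ
                    push_cast at this; linarith)
  have hno : ∀ S : Finset ℤ, o ∉ S.image φ := fun S hS => by
    obtain ⟨i, -, hi⟩ := mem_image.1 hS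
    exact ho i hi
  have hao : a o = o := (hfa o).2 (Or.inl rfl)
  have hbo : b o = o := (hfb o).2 (Or.inl rfl)
  -- the block of the first set
  set S0 : Finset ℤ := (Icc (-(s : ℤ)) s).erase 0 with hS0
  have hS0c : S0.card = 2 * s := by
    rw [hS0, card_erase_of_mem (by simp), Int.card_Icc]
    omega
  have hc0 : (insert o (S0.image φ)).card = 2 * s + 1 := by
    rw [card_insert_of_notMem (hno _),
      card_image_of_injOn (hIa.mono (by intro x hx; exact mem_of_mem_erase hx)), hS0c]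
  obtain ⟨B, ⟨hB, hTB⟩, -⟩ := h.unique _ hc0
  have hBa : ∀ x ∈ B, a x ∈ B := by
    refine h.stab pa (image_invol_mem a ha) hB hc0.ge hTB ?_
    intro x hx
    rcases mem_insert.1 hx with rfl | hx
    · rw [hao]; exact hTB (mem_insert_self _ _)
    obtain ⟨i, hi, rfl⟩ := mem_image.1 hx
    rw [haφ]
    refine hTB (mem_insert_of_mem (mem_image_of_mem _ ?_))
    rw [hS0, mem_erase, mem_Icc] at hi ⊢
    exact ⟨by simpa using hi.1, by omega⟩
  have hoB : o ∈ B := hTB (mem_insert_self _ _)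
  have h0 : φ 0 ∈ B := ((even_two a ha o _ (ho 0).symm hfa B hBa).1 (by rwa [h.card B hB])).1 hoB
  -- the block of the second set
  set S1 : Finset ℤ := (Icc (1 - (s : ℤ)) (1 + s)).erase 1 with hS1
  have hS1c : S1.card = 2 * s := by
    rw [hS1, card_erase_of_mem (by rw [mem_Icc]; omega), Int.card_Icc]
    omega
  have hc1 : (insert o (S1.image φ)).card = 2 * s + 1 := by
    rw [card_insert_of_notMem (hno _),
      card_image_of_injOn (hIb.mono (by intro x hx; exact mem_of_mem_erase hx)), hS1c]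
  obtain ⟨B', ⟨hB', hTB'⟩, -⟩ := h.unique _ hc1
  have hBb : ∀ x ∈ B', b x ∈ B' := by
    refine h.stab pb (image_invol_mem b hb) hB' hc1.ge hTB' ?_
    intro x hx
    rcases mem_insert.1 hx with rfl | hx
    · rw [hbo]; exact hTB' (mem_insert_self _ _)
    obtain ⟨i, hi, rfl⟩ := mem_image.1 hx
    rw [hbφ]
    refine hTB' (mem_insert_of_mem (mem_image_of_mem _ ?_))
    rw [hS1, mem_erase, mem_Icc] at hi ⊢
    exact ⟨fun h => hi.1 (by linarith), by omega⟩
  have hoB' : o ∈ B' := hTB' (mem_insert_self _ _)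
  have h1 : φ 1 ∈ B' :=
    ((even_two b hb o _ (ho 1).symm hfb B' hBb).1 (by rwa [h.card B' hB'])).1 hoB'
  -- they agree
  have hT : Set.InjOn φ (Icc (1 - (s : ℤ)) s : Finset ℤ) := hIa.mono (by
    intro x hx; rw [coe_Icc, Set.mem_Icc] at hx ⊢; omega)
  have hBB : B = B' := by
    refine h.eq hB hB' (T := insert o ((Icc (1 - (s : ℤ)) s).image φ)) ?_ ?_ ?_
    · rw [card_insert_of_notMem (hno _), card_image_of_injOn hT, Int.card_Icc]
      omega
    · intro x hx
      rcases mem_insert.1 hx with rfl | hx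
      · exact hoB
      obtain ⟨i, hi, rfl⟩ := mem_image.1 hx
      rw [mem_Icc] at hi
      by_cases hi0 : i = 0
      · rw [hi0]; exact h0
      · refine hTB (mem_insert_of_mem (mem_image_of_mem _ ?_))
        rw [hS0, mem_erase, mem_Icc]
        exact ⟨hi0, by omega⟩
    · intro x hx
      rcases mem_insert.1 hx with rfl | hx
      · exact hoB'
      obtain ⟨i, hi, rfl⟩ := mem_image.1 hx
      rw [mem_Icc] at hi
      by_cases hi0 : i = 1
      · rw [hi0]; exact h1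
      · refine hTB' (mem_insert_of_mem (mem_image_of_mem _ ?_))
        rw [hS1, mem_erase, mem_Icc]
        exact ⟨hi0, by omega⟩
  subst hBB
  exact ⟨B, hB, hoB, all_mem haφ hbφ hBa hBb h0 h1⟩

end Pool.Agent.Helper40K9.SR
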