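import Mathlib

/-! Steiner systems and reflections: core lemmas -/

set_option autoImplicit false

open Finset

namespace Pool.Agent.Helper40K9.SR

variable {X : Type*} [DecidableEq X]

/-- a Steiner system of strength `t` with blocks of size `k` on the points of `X` -/
structure IsSteiner (t k : ℕ) (𝓑 : Set (Finset X)) : Prop where
  card : ∀ B ∈ 𝓑, B.card = k
  unique : ∀ T : Finset X, T.card = t → ∃! B, B ∈ 𝓑 ∧ T ⊆ B

/-- the map `f` sends blocks to blocks -/
def Pres (𝓑 : Set (Finset X)) (f : X → X) : Prop := ∀ B ∈ 𝓑, B.image f ∈ 𝓑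

variable {t k : ℕ} {𝓑 : Set (Finset X)}

lemma IsSteiner.eq (h : IsSteiner t k 𝓑) {B C : Finset X} (hB : B ∈ 𝓑) (hC : C ∈ 𝓑)
    {T : Finset X} (hT : t ≤ T.card) (hTB : T ⊆ B) (hTC : T ⊆ C) : B = C := by
  obtain ⟨T', hT', hc⟩ := exists_subset_card_eq hT
  exact (h.unique T' hc).unique ⟨hB, hT'.trans hTB⟩ ⟨hC, hT'.trans hTC⟩

/-- if `f` maps `t` points of a block into the block then it maps the block to itself -/
lemma IsSteiner.stab (h : IsSteiner t k 𝓑) {f : X → X} (hf : Pres 𝓑 f)
    (hinj : Function.Injective f) {B : Finset X} (hB : B ∈ 𝓑) {T : Finset X} (hT : t ≤ T.card)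
    (hTB : T ⊆ B) (hfT : ∀ x ∈ T, f x ∈ B) : ∀ x ∈ B, f x ∈ B := by
  have h1 : B.image f = B := by
    refine h.eq (hf B hB) hB (T := T.image f) ?_ (image_subset_image hTB) ?_
    · rwa [card_image_of_injective _ hinj]
    · intro y hy
      obtain ⟨x, hx, rfl⟩ := mem_image.1 hy
      exact hfT x hx
  intro x hx
  rw [← h1]
  exact mem_image_of_mem _ hx

lemma IsSteiner.ge [Fintype X] (h : IsSteiner t k 𝓑) (ht : t ≤ Fintype.card X) : t ≤ k := by
  obtain ⟨T, -, hT⟩ := exists_subset_card_eq (s := (univ : Finset X)) (n := t) (by simpa using ht)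
  obtain ⟨B, ⟨hB, hTB⟩, -⟩ := h.unique T hT
  rw [← h.card B hB, ← hT]
  exact card_le_card hTB

lemma even_moved (a : X → X) (ha : ∀ x, a (a x) = x) (B : Finset X) (hB : ∀ x ∈ B, a x ∈ B) :
    Even (B.filter (fun x => a x ≠ x)).card := by
  rw [← ZMod.natCast_eq_zero_iff_even, card_eq_sum_ones, Nat.cast_sum]
  refine sum_involution (fun x _ => a x) (fun x _ => by push_cast; decide)
    (fun x hx _ => (mem_filter.1 hx).2) (fun x hx => ?_) (fun x _ => ha x)
  rw [mem_filter] at hx ⊢
  refine ⟨hB x hx.1, fun h => hx.2 ?_⟩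
  rw [ha] at h
  exact h.symm

lemma card_split (a : X → X) (B : Finset X) :
    B.card = (B.filter (fun x => a x = x)).card + (B.filter (fun x => a x ≠ x)).card :=
  (card_filter_add_card_filter_not (s := B) (fun x => a x = x)).symm

/-- an involution with one fixed point -/
lemma odd_iff_one (a : X → X) (ha : ∀ x, a (a x) = x) (α : X) (hα : ∀ x, a x = x ↔ x = α)
    (B : Finset X) (hB : ∀ x ∈ B, a x ∈ B) : Odd B.card ↔ α ∈ B := by
  rw [card_split a B]
  have h1 : B.filter (fun x => a x = x) = if α ∈ B then {α} else ∅ := by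
    ext x
    rw [mem_filter, hα]
    split_ifs with h
    · rw [mem_singleton]
      exact ⟨fun h' => h'.2, fun h' => ⟨h' ▸ h, h'⟩⟩
    · simp only [notMem_empty, iff_false]
      rintro ⟨h', rfl⟩
      exact h h'
  have h2 := even_moved a ha B hB
  rw [h1]
  split_ifs with h
  · simp only [card_singleton, h, iff_true]
    exact Even.one_add h2 |> fun h => h
  · simp only [card_empty, zero_add, h, iff_false, Nat.not_odd_iff_even]
    exact h2

/-- an involution without fixed points -/
lemma even_free (a : X → X) (ha : ∀ x, a (a x) = x) (hα : ∀ x, a x ≠ x)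
    (B : Finset X) (hB : ∀ x ∈ B, a x ∈ B) : Even B.card := by
  have := even_moved a ha B hB
  rwa [filter_true_of_mem (fun x _ => hα x)] at this

/-- an involution with two fixed points -/
lemma even_two (a : X → X) (ha : ∀ x, a (a x) = x) (o α : X) (hoα : o ≠ α)
    (hα : ∀ x, a x = x ↔ x = o ∨ x = α)
    (B : Finset X) (hB : ∀ x ∈ B, a x ∈ B) : Even B.card ↔ (o ∈ B ↔ α ∈ B) := by
  rw [card_split a B]
  have h1 : B.filter (fun x => a x = x) = (if o ∈ B then {o} else ∅) ∪ if α ∈ B then {α} else ∅ := by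
    ext x
    rw [mem_filter, hα, mem_union]
    constructor
    · rintro ⟨h, rfl | rfl⟩
      · left; simp [h]
      · right; simp [h]
    · rintro (h | h)
      · split_ifs at h with h'
        · rw [mem_singleton] at h; exact ⟨h ▸ h', Or.inl h⟩
        · simp at h
      · split_ifs at h with h'
        · rw [mem_singleton] at h; exact ⟨h ▸ h', Or.inr h⟩
        · simp at h
  have h2 := even_moved a ha B hB
  rw [h1]
  by_cases ho : o ∈ B <;> by_cases hα' : α ∈ B
  · have : ({o} ∪ {α} : Finset X).card = 2 := by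
      rw [← insert_eq, card_pair hoα]
    simp only [ho, hα', if_true, this]
    simpa [Nat.even_add] using h2
  · simp only [ho, hα', if_true, if_false, union_empty, card_singleton, iff_false, not_true,
      Nat.not_even_iff_odd]
    exact h2.one_add
  · simp only [ho, hα', if_true, if_false, empty_union, card_singleton, false_iff, not_true,
      iff_false, Nat.not_even_iff_odd]
    exact h2.one_add
  · simp [ho, hα', h2]

/-- invariant sets of given even size -/
lemma exists_inv (a : X → X) (ha : ∀ x, a (a x) = x) (Y : Finset X) (hY : ∀ x ∈ Y, a x ∈ Y)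
    (hf : ∀ x ∈ Y, a x ≠ x) (j : ℕ) (hj : 2 * j ≤ Y.card) :
    ∃ Z ⊆ Y, (∀ x ∈ Z, a x ∈ Z) ∧ Z.card = 2 * j := by
  induction j with
  | zero => exact ⟨∅, by simp, by simp, by simp⟩
  | succ j ih =>
    obtain ⟨Z, hZ, hZa, hZc⟩ := ih (by omega)
    have h1 : (Y \ Z).Nonempty := by
      rw [← card_pos, card_sdiff_of_subset hZ]
      omega
    obtain ⟨x, hx⟩ := h1
    rw [mem_sdiff] at hx
    have hax : a x ∉ Z := fun h => hx.2 (by have := hZa _ h; rwa [ha] at this)
    refine ⟨insert x (insert (a x) Z), ?_, ?_, ?_⟩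
    · intro y hy
      rw [mem_insert, mem_insert] at hy
      rcases hy with rfl | rfl | hy
      · exact hx.1
      · exact hY _ hx.1
      · exact hZ hy
    · intro y hy
      rw [mem_insert, mem_insert] at hy ⊢
      rcases hy with rfl | rfl | hy
      · right; left; rfl
      · left; exact ha x
      · right; right; exact hZa _ hy
    · rw [card_insert_of_notMem, card_insert_of_notMem hax, hZc]
      · ring
      · rw [mem_insert, not_or]
        exact ⟨fun h => hf x hx.1 h.symm, hx.2⟩

lemma image_invol_mem (a : X → X) (ha : ∀ x, a (a x) = x) : Function.Injective a :=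
  fun x y h => by rw [← ha x, h, ha]

end Pool.Agent.Helper40K9.SR
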