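import Pool.Agent.Helper40K9.SR.Geo2

/-! Steiner systems and reflections: the groups `PSL(2,q)` and `PGL(2,q)` -/

set_option autoImplicit false
set_option linter.unusedSectionVars false

open Finset

namespace Pool.Agent.Helper40K9.SR

variable {F : Type*} [Field F] [DecidableEq F] {t k : ℕ} {𝓑 : Set (Finset (Option F))}

/-- Moebius transformations -/
def mob (a b c d : F) : Option F → Option F
  | none => if c = 0 then none else some (a / c)
  | some x => if c * x + d = 0 then none else some ((a * x + b) / (c * x + d))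

lemma mob_trans (g : F) : mob 1 g 0 1 = Option.map (fun x => x + g) := by
  funext x
  cases x with
  | none => simp [mob]
  | some x => simp [mob]

lemma mob_dil (c : F) : mob c 0 0 1 = Option.map (fun x => c * x) := by
  funext x
  cases x with
  | none => simp [mob]
  | some x => simp [mob]

lemma mob_neg {i : F} (hi : i ≠ 0) : mob i 0 0 (-i) = Option.map (fun x => -x) := by
  funext x
  cases x with
  | none => simp [mob]
  | some x =>
    have h1 : (0 : F) * x + -i ≠ 0 := by rw [zero_mul, zero_add]; exact neg_ne_zero.2 hi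
    simp only [mob, if_neg h1, Option.map_some]
    congr 1
    rw [zero_mul, zero_add, add_zero, div_neg, mul_div_assoc, mul_comm, div_mul_cancel₀ x hi]

lemma mob_iv {u v : F} (hu : u ≠ 0) (hv : v ≠ 0) : mob 0 u v 0 = iv (u / v) := by
  funext x
  cases x with
  | none => simp [mob, hv]
  | some x =>
    by_cases hx : x = 0
    · subst hx; simp [mob]
    · rw [iv_some hx]
      have h1 : v * x + 0 ≠ 0 := by rw [add_zero]; exact mul_ne_zero hv hx
      simp only [mob, if_neg h1]
      congr 1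
      field_simp
      ring

/-- invariance under `PSL(2,q)` -/
def PSL (𝓑 : Set (Finset (Option F))) : Prop :=
  ∀ a b c d : F, a * d - b * c = 1 → Pres 𝓑 (mob a b c d)

/-- invariance under `PGL(2,q)` -/
def PGL (𝓑 : Set (Finset (Option F))) : Prop :=
  ∀ a b c d : F, a * d - b * c ≠ 0 → Pres 𝓑 (mob a b c d)

lemma PGL.psl (h : PGL 𝓑) : PSL 𝓑 := fun a b c d hd => h a b c d (by rw [hd]; exact one_ne_zero)

lemma PSL.trans (h : PSL 𝓑) (g : F) : Pres 𝓑 (Option.map (fun x => x + g)) := by
  rw [← mob_trans]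
  exact h _ _ _ _ (by ring)

lemma PSL.neg (h : PSL 𝓑) {i : F} (hi : i * i = -1) : Pres 𝓑 (Option.map (fun x => -x)) := by
  have hi0 : i ≠ 0 := by
    rintro rfl
    rw [mul_zero] at hi
    exact one_ne_zero (neg_eq_zero.1 hi.symm)
  rw [← mob_neg hi0]
  refine h _ _ _ _ ?_
  linear_combination -hi

lemma PSL.iv (h : PSL 𝓑) {i : F} (hi : i * i = -1) (c : F) (hc : c ≠ 0) : Pres 𝓑 (iv (c ^ 2)) := by
  have hi0 : i ≠ 0 := by
    rintro rfl
    rw [mul_zero] at hi
    exact one_ne_zero (neg_eq_zero.1 hi.symm)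
  have h1 : c ^ 2 = (c * i) / (i / c) := by field_simp
  rw [h1, ← mob_iv (mul_ne_zero hc hi0) (div_ne_zero hi0 hc)]
  refine h _ _ _ _ ?_
  have : c * i * (i / c) = i * i := by field_simp
  rw [this]
  linear_combination -hi

lemma PSL.ivm (h : PSL 𝓑) : Pres 𝓑 (SR.iv (-1 : F)) := by
  have h1 : (-1 : F) = (-1) / 1 := by rw [div_one]
  rw [h1, ← mob_iv (neg_ne_zero.2 one_ne_zero) one_ne_zero]
  exact h _ _ _ _ (by ring)

lemma PGL.dil (h : PGL 𝓑) (c : F) (hc : c ≠ 0) : Pres 𝓑 (Option.map (fun x => c * x)) := by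
  rw [← mob_dil]
  exact h _ _ _ _ (by rw [mul_one, mul_zero, sub_zero]; exact hc)

lemma PGL.neg (h : PGL 𝓑) : Pres 𝓑 (Option.map (fun x : F => -x)) := by
  have := h.dil (-1) (neg_ne_zero.2 one_ne_zero)
  convert this using 3
  ring

lemma PGL.iv (h : PGL 𝓑) (c : F) (hc : c ≠ 0) : Pres 𝓑 (SR.iv c) := by
  have h1 : c = c / 1 := by rw [div_one]
  rw [h1, ← mob_iv hc one_ne_zero]
  exact h _ _ _ _ (by rw [zero_mul, mul_one, zero_sub]; exact neg_ne_zero.2 hc)

variable [Fintype F]

/-- characteristic two -/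
lemma psl_even (hS : IsSteiner t k 𝓑) (htk : t < k) (hk : k < Fintype.card F + 1)
    (h : PSL 𝓑) (hq : Even (Fintype.card F)) : k ≡ t [MOD 2] := by
  have h2 : (2 : F) = 0 := by
    have h1 : ringChar F = 2 := by
      by_contra hc
      have := FiniteField.odd_card_of_char_ne_two hc
      rw [Nat.even_iff] at hq
      omega
    have : ((ringChar F : ℕ) : F) = 0 := CharP.cast_eq_zero F (ringChar F)
    rw [h1] at this
    exact_mod_cast this
  have hneg : (1 : F) * 1 = -1 := by
    have h3 : (1 : F) + 1 = 0 := by rw [one_add_one_eq_two, h2]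
    rw [mul_one]
    exact eq_neg_of_add_eq_zero_left h3
  exact char_two h2 hS htk hk (h.trans 1) (fun c hc => h.iv hneg c hc) hq

/-- involutions `x ↦ -x` and `x ↦ c ^ 2 / x` -/
lemma odd_line (hS : IsSteiner t k 𝓑) (ht : 2 ≤ t) (htk : t < k) (hk : k < Fintype.card F + 1)
    (hq : Odd (Fintype.card F)) (ptr : ∀ g : F, Pres 𝓑 (Option.map (fun x => x + g)))
    (pn : Pres 𝓑 (Option.map (fun x => -x)))
    (pv : ∀ c : F, c ≠ 0 → Pres 𝓑 (SR.iv (c ^ 2))) :
    k ≡ t [MOD 2] ∨ (t % 4 = 3 ∧ ringChar F + 1 ≤ k) := by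
  obtain ⟨a, m, ha, hm⟩ := exists_prim hq
  have h1 : ringChar F = addOrderOf (1 : F) :=
    CharP.eq F (inferInstanceAs (CharP F (ringChar F))) (CharP.addOrderOf_one F)
  rcases abel_two hq hS (by omega) htk (by omega) ptr pn with h | ⟨h, h'⟩
  · exact Or.inl h
  · by_cases hkt : k ≡ t [MOD 2]
    · exact Or.inl hkt
    right
    refine ⟨?_, by rw [h1]; exact h' 1⟩
    obtain ⟨s, hs⟩ := h
    rcases Nat.even_or_odd' s with ⟨f, hf | hf⟩
    · exfalso
      have hke : Even k := by
        rw [Nat.ModEq] at hkt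
        rw [Nat.even_iff]
        omega
      obtain ⟨B, hB, hall⟩ := one_mod_four ha hS hke pn pv f (by omega) (by omega) (by
        obtain ⟨j, hj⟩ := hke
        omega)
      have h4 : (univ : Finset (Option F)) ⊆ B := fun x _ => hall x
      have h5 := card_le_card h4
      rw [card_univ, Fintype.card_option, hS.card B hB] at h5
      omega
    · omega

/-- **`PSL(2,q)`.** -/
theorem psl_one (hS : IsSteiner t k 𝓑) (ht : 2 ≤ t) (htk : t < k) (hk : k < Fintype.card F + 1)
    (h : PSL 𝓑) :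
    k ≡ t [MOD 2] ∨ (Odd t ∧ (Fintype.card F % 4 = 3 ∨
      (Fintype.card F % 4 = 1 ∧ t % 4 = 3 ∧ ringChar F + 1 ≤ k))) := by
  rcases Nat.even_or_odd (Fintype.card F) with hq | hq
  · exact Or.inl (psl_even hS htk hk h hq)
  by_cases h3 : Fintype.card F % 4 = 3
  · rcases Nat.even_or_odd t with hte | hto
    · left
      have h1 : ∀ x : Option F, SR.iv (-1 : F) x ≠ x := by
        intro x
        cases x with
        | none => simp
        | some x =>
          by_cases hx : x = 0
          · subst hx; simp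
          · rw [iv_some hx]
            intro hc
            have h4 := Option.some.inj hc
            rw [div_eq_iff hx] at h4
            exact (FiniteField.isSquare_neg_one_iff.1 ⟨x, h4⟩) h3
      have := even_of_free hS hte (by rw [Fintype.card_option]; omega) (SR.iv (-1 : F))
        (iv_iv (neg_ne_zero.2 one_ne_zero)) h.ivm h1
      rw [Nat.even_iff] at this hte
      rw [Nat.ModEq, this, hte]
    · exact Or.inr ⟨hto, Or.inl h3⟩
  · obtain ⟨i, hi⟩ := FiniteField.isSquare_neg_one_iff.2 h3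
    rcases odd_line hS ht htk hk hq h.trans (h.neg hi.symm) (fun c hc => h.iv hi.symm c hc) with
      h1 | ⟨h1, h2⟩
    · exact Or.inl h1
    · right
      refine ⟨by rw [Nat.odd_iff]; omega, Or.inr ⟨?_, h1, h2⟩⟩
      rw [Nat.odd_iff] at hq
      omega

/-- **`PSL(2,q)`, block size `t + 1`.** -/
theorem psl_two (hS : IsSteiner t (t + 1) 𝓑) (ht : 2 ≤ t) (hk : t + 1 < Fintype.card F + 1)
    (h : PSL 𝓑) :
    (Fintype.card F % 4 = 3 ∧ Odd t) ∨ (t = 3 ∧ ringChar F = 3) := by
  rcases psl_one hS ht (by omega) hk h with h1 | ⟨h1, h2 | ⟨h2, h3, h4⟩⟩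
  · exfalso
    rw [Nat.ModEq] at h1
    omega
  · exact Or.inl ⟨h2, h1⟩
  · right
    have hq : Odd (Fintype.card F) := by rw [Nat.odd_iff]; omega
    obtain ⟨i, hi⟩ := FiniteField.isSquare_neg_one_iff.2 (by omega : Fintype.card F % 4 ≠ 3)
    obtain ⟨a, m, ha, hm⟩ := exists_prim hq
    by_cases h5 : t = 3
    · refine ⟨h5, ?_⟩
      have hp : (ringChar F).Prime := CharP.char_is_prime F (ringChar F)
      have h6 : ringChar F ≠ 2 := by
        intro hc
        have := FiniteField.even_card_iff_char_two.1 hc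
        omega
      have := hp.two_le
      omega
    · exfalso
      exact three_mod_four ha (n := m / 2) (by omega) hS (h.neg hi.symm)
        (fun c hc => h.iv hi.symm c hc) (t / 4) (by omega) (by omega) (by omega)

/-- **`PGL(2,q)`.** -/
theorem pgl_one (hS : IsSteiner t k 𝓑) (ht : 2 ≤ t) (htk : t < k) (hk : k < Fintype.card F + 1)
    (h : PGL 𝓑) :
    k ≡ t [MOD 2] ∨ (Odd (Fintype.card F) ∧ t % 4 = 3 ∧ ringChar F + 1 ≤ k) := by
  rcases Nat.even_or_odd (Fintype.card F) with hq | hq
  · exact Or.inl (psl_even hS htk hk h.psl hq)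
  rcases odd_line hS ht htk hk hq h.psl.trans h.neg (fun c hc => h.iv _ (pow_ne_zero 2 hc)) with
    h1 | ⟨h1, h2⟩
  · exact Or.inl h1
  · exact Or.inr ⟨hq, h1, h2⟩

theorem pgl_two (hS : IsSteiner t k 𝓑) (htk : t < k) (hk : k < Fintype.card F + 1)
    (h : PGL 𝓑) (d : ℕ) (hd : d ∣ Fintype.card F - 1) : t ≠ 2 * d + 2 :=
  dilations hS htk hk h.dil h.iv d hd

end Pool.Agent.Helper40K9.SR
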