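import Pool.Agent.Helper40K9.SR.Line

/-! Steiner systems and reflections: geometric progressions on the projective line -/

set_option autoImplicit false
set_option linter.unusedSectionVars false

open Finset

namespace Pool.Agent.Helper40K9.SR

variable {F : Type*} [Field F] [DecidableEq F]

/-- the two signs -/
def Sg : Finset F := {1, -1}

lemma mem_Sg {ε : F} : ε ∈ (Sg : Finset F) ↔ ε = 1 ∨ ε = -1 := by
  rw [Sg, mem_insert, mem_singleton]

lemma card_Sg {a : F} {m : ℕ} (h : Prim a m) : (Sg : Finset F).card = 2 := card_pair h.one_ne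

lemma Sg_ne {ε : F} (h : ε ∈ (Sg : Finset F)) : ε ≠ 0 := sign_ne h

lemma Prim.cardQ {a : F} {m : ℕ} (h : Prim a m) {J : Finset ℕ} (hJ : Adm m J)
    {D : Finset (ℕ × F)} (hD : D ⊆ J ×ˢ Sg) : (Q a D).card = D.card + 2 := by
  refine card_Q h.ne ((h.injOn hJ).mono ?_) fun p hp => ?_
  · exact Finset.coe_subset.2 hD
  · exact Sg_ne (mem_product.1 (hD hp)).2

lemma neg_neg_map (x : Option F) : Option.map (fun x => -x) (Option.map (fun x => -x) x) = x := by
  cases x <;> simp

lemma neg_fix {a : F} {m : ℕ} (h : Prim a m) (x : Option F) :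
    Option.map (fun x => -x) x = x ↔ x = none ∨ x = some 0 := by
  cases x with
  | none => simp
  | some x =>
    simp only [Option.map_some, Option.some.injEq, reduceCtorEq, false_or]
    constructor
    · intro hx
      by_contra hne
      apply h.one_ne
      have h1 : (-1) * x = 1 * x := by rw [neg_one_mul, one_mul, hx]
      exact (mul_right_cancel₀ hne h1).symm
    · rintro rfl; exact neg_zero

variable {t k : ℕ} {𝓑 : Set (Finset (Option F))}

lemma neg_full {a : F} {m : ℕ} (h : Prim a m) (hS : IsSteiner t k 𝓑) (hk : Even k)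
    (pn : Pres 𝓑 (Option.map (fun x => -x))) {J : Finset ℕ} (hJ : Adm m J)
    (ht : t + 1 = 2 * J.card + 2) :
    ∃ B ∈ 𝓑, Q a (J ×ˢ Sg) ⊆ B ∧ ∀ z ∈ B, Option.map (fun x => -x) z ∈ B := by
  refine full hS hk _ neg_neg_map pn none (some 0) (by simp) (neg_fix h) _ ?_ (none_mem_Q _ _)
    (zero_mem_Q _ _) ?_
  · intro z hz
    rcases Q_cases hz with rfl | rfl | ⟨j, ε, hj, rfl⟩
    · exact none_mem_Q _ _
    · simpa using zero_mem_Q a _
    · rw [Option.map_some, ← neg_mul]
      rw [mem_product, mem_Sg] at hj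
      refine mem_Q (mem_product.2 ⟨hj.1, mem_Sg.2 ?_⟩)
      simp only at hj ⊢
      rcases hj.2 with h | h
      · exact Or.inr (by rw [h])
      · exact Or.inl (by rw [h, neg_neg])
  · rw [h.cardQ hJ (Subset.refl _), card_product, card_Sg h]
    omega

/-- the set of pairs used for the involution with the fixed points `± a ^ (u + f)` -/
def DD (u f : ℕ) (J₀ : Finset ℕ) : Finset (ℕ × F) :=
  (Icc (u + 1) (u + 2 * f - 1) ×ˢ Sg) ∪ ({(u + 2 * f, 1), (u, 1)} ∪ J₀ ×ˢ Sg)

lemma card_DD {a : F} {m : ℕ} (h : Prim a m) (u f : ℕ) (hf : 1 ≤ f) (J₀ : Finset ℕ)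
    (hd : Disjoint (Icc u (u + 2 * f)) J₀) :
    (DD u f J₀ : Finset (ℕ × F)).card = 4 * f + 2 * J₀.card := by
  rw [DD, card_union_of_disjoint, card_union_of_disjoint, card_product, card_product, card_Sg h,
    card_pair, Nat.card_Icc]
  · omega
  · simp only [ne_eq, Prod.mk.injEq, not_and]
    intro hc; omega
  · rw [Finset.disjoint_left]
    rintro ⟨j, ε⟩ hj hj'
    rw [mem_product] at hj'
    rw [Finset.disjoint_left] at hd
    rw [mem_insert, mem_singleton, Prod.mk.injEq, Prod.mk.injEq] at hj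
    rcases hj with ⟨rfl, -⟩ | ⟨rfl, -⟩
    · exact hd (mem_Icc.2 ⟨by omega, le_refl _⟩) hj'.1
    · exact hd (mem_Icc.2 ⟨le_refl _, by omega⟩) hj'.1
  · rw [Finset.disjoint_left]
    rintro ⟨j, ε⟩ hj hj'
    rw [mem_product, mem_Icc] at hj
    rw [mem_union, mem_product, mem_insert, mem_singleton, Prod.mk.injEq, Prod.mk.injEq] at hj'
    rw [Finset.disjoint_left] at hd
    rcases hj' with (⟨h1, -⟩ | ⟨h1, -⟩) | h1
    · simp only at hj; omega
    · simp only at hj; omega
    · exact hd (mem_Icc.2 ⟨by simp only at hj; omega, by simp only at hj; omega⟩) h1.1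

lemma DD_sub (u f : ℕ) (hf : 1 ≤ f) (J₀ : Finset ℕ) :
    (DD u f J₀ : Finset (ℕ × F)) ⊆ (Icc u (u + 2 * f) ∪ J₀) ×ˢ Sg := by
  rintro ⟨j, ε⟩ hj
  rw [DD, mem_union, mem_union, mem_product, mem_product, mem_insert, mem_singleton,
    Prod.mk.injEq, Prod.mk.injEq, mem_Icc] at hj
  rw [mem_product, mem_union, mem_Icc]
  rcases hj with h1 | (⟨h1, h2⟩ | ⟨h1, h2⟩) | h1
  · exact ⟨Or.inl ⟨by simp only at h1 ⊢; omega, by simp only at h1 ⊢; omega⟩, h1.2⟩
  · exact ⟨Or.inl ⟨by simp only; omega, by simp only; omega⟩, mem_Sg.2 (Or.inl h2)⟩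
  · exact ⟨Or.inl ⟨by simp only; omega, by simp only; omega⟩, mem_Sg.2 (Or.inl h2)⟩
  · exact ⟨Or.inr h1.1, h1.2⟩

lemma geo_full {a : F} {m : ℕ} (h : Prim a m) (hS : IsSteiner t k 𝓑) (hk : Even k)
    (pv : ∀ c : F, c ≠ 0 → Pres 𝓑 (iv (c ^ 2))) (u f : ℕ) (hf : 1 ≤ f) (J₀ : Finset ℕ)
    (hd : Disjoint (Icc u (u + 2 * f)) J₀) (hJ : Adm m (Icc u (u + 2 * f) ∪ J₀))
    (hJ₀ : ∀ j ∈ J₀, ∀ ε ∈ (Sg : Finset F), ∃ j' ∈ J₀, ∃ ε' ∈ (Sg : Finset F),
      (a ^ (u + f)) ^ 2 / (ε * a ^ j) = ε' * a ^ j')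
    (ht : t + 1 = 4 * f + 2 * J₀.card + 2) :
    ∃ B ∈ 𝓑, Q a (DD u f J₀) ⊆ B ∧ ∀ z ∈ B, iv ((a ^ (u + f)) ^ 2) z ∈ B := by
  have hc0 : a ^ (u + f) ≠ 0 := pow_ne_zero _ h.ne
  have hmid : ∀ ε ∈ (Sg : Finset F), (u + f, ε) ∈ (DD u f J₀ : Finset (ℕ × F)) := by
    intro ε hε
    rw [DD, mem_union, mem_product, mem_Icc]
    left
    exact ⟨⟨by simp only; omega, by simp only; omega⟩, hε⟩
  refine full hS hk _ (iv_iv (pow_ne_zero 2 hc0)) (pv _ hc0) (some (a ^ (u + f)))
    (some (-a ^ (u + f))) ?_ (iv_fix hc0) _ ?_ ?_ ?_ ?_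
  · intro hh
    apply h.one_ne
    have h1 := Option.some.inj hh
    have h2 : (1 : F) * a ^ (u + f) = -1 * a ^ (u + f) := by rw [one_mul, neg_one_mul]; exact h1
    exact mul_right_cancel₀ hc0 h2
  · intro z hz
    rcases Q_cases hz with rfl | rfl | ⟨j, ε, hj, rfl⟩
    · exact zero_mem_Q _ _
    · rw [iv_zero]; exact none_mem_Q _ _
    · have hε : ε ∈ (Sg : Finset F) := (mem_product.1 (DD_sub u f hf J₀ hj)).2
      have hne : ε * a ^ j ≠ 0 := mul_ne_zero (Sg_ne hε) (pow_ne_zero _ h.ne)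
      rw [iv_some hne]
      have hεε : ε * ε = 1 := by
        rcases mem_Sg.1 hε with rfl | rfl <;> ring
      have hmain : j ≤ 2 * u + 2 * f → (a ^ (u + f)) ^ 2 / (ε * a ^ j)
          = ε * a ^ (2 * u + 2 * f - j) := by
        intro hj'
        rw [div_eq_iff hne]
        calc (a ^ (u + f)) ^ 2 = a ^ (2 * u + 2 * f - j + j) := by
              rw [← pow_mul]; congr 1; omega
          _ = ε * a ^ (2 * u + 2 * f - j) * (ε * a ^ j) := by
              rw [pow_add]
              linear_combination (-(a ^ (2 * u + 2 * f - j) * a ^ j)) * hεε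
      rw [DD, mem_union, mem_union, mem_product, mem_product, mem_insert, mem_singleton,
        Prod.mk.injEq, Prod.mk.injEq, mem_Icc] at hj
      rcases hj with h1 | (⟨h1, h2⟩ | ⟨h1, h2⟩) | h1
      · simp only at h1
        rw [hmain (by omega)]
        refine mem_Q ?_
        rw [DD, mem_union, mem_product, mem_Icc]
        left
        exact ⟨⟨by simp only; omega, by simp only; omega⟩, hε⟩
      · rw [hmain (by omega)]
        refine mem_Q ?_
        rw [DD, mem_union, mem_union, mem_insert, mem_singleton]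
        right; left; right
        rw [Prod.mk.injEq]
        exact ⟨by omega, h2⟩
      · rw [hmain (by omega)]
        refine mem_Q ?_
        rw [DD, mem_union, mem_union, mem_insert, mem_singleton]
        right; left; left
        rw [Prod.mk.injEq]
        exact ⟨by omega, h2⟩
      · obtain ⟨j', hj', ε', hε', he⟩ := hJ₀ j h1.1 ε h1.2
        rw [he]
        refine mem_Q ?_
        rw [DD, mem_union, mem_union, mem_product (p := (j', ε')) (s := J₀)]
        right; right
        exact ⟨hj', hε'⟩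
  · have := mem_Q (a := a) (hmid 1 (mem_Sg.2 (Or.inl rfl)))
    rwa [one_mul] at this
  · have := mem_Q (a := a) (hmid (-1) (mem_Sg.2 (Or.inr rfl)))
    rwa [neg_one_mul] at this
  · rw [h.cardQ hJ (DD_sub u f hf J₀), card_DD h u f hf J₀ hd]
    omega

lemma adm_Icc (m u v : ℕ) (h : v < u + m) : Adm m (Icc u v) := by
  intro i hi j hj hij
  rw [mem_Icc] at hi hj
  by_contra hne
  rcases lt_or_gt_of_ne hne with hlt | hlt
  · have := (Nat.modEq_iff_dvd' hlt.le).1 hij
    have := Nat.le_of_dvd (by omega) this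
    omega
  · have := (Nat.modEq_iff_dvd' hlt.le).1 hij.symm
    have := Nat.le_of_dvd (by omega) this
    omega

/-- **Strength `1` modulo `4`**: the block size is odd. -/
theorem one_mod_four {a : F} {m : ℕ} (h : Prim a m) (hS : IsSteiner t k 𝓑) (hk : Even k)
    (pn : Pres 𝓑 (Option.map (fun x => -x)))
    (pv : ∀ c : F, c ≠ 0 → Pres 𝓑 (iv (c ^ 2))) (f : ℕ) (hf : 1 ≤ f) (ht : t = 4 * f + 1)
    (hm : 2 * f + 1 ≤ m) : ∃ B ∈ 𝓑, ∀ x, x ∈ B := by
  have hJ1 : Adm m (Icc 1 (2 * f)) := adm_Icc _ _ _ (by omega)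
  obtain ⟨B, hB, hQ, -⟩ := neg_full h hS hk pn hJ1 (by rw [Nat.card_Icc]; omega)
  have hE : ∀ u, u ≤ 1 → ∃ B' ∈ 𝓑, Q a (DD u f ∅) ⊆ B' ∧ ∀ z ∈ B', iv ((a ^ (u + f)) ^ 2) z ∈ B' := by
    intro u hu
    refine geo_full h hS hk pv u f hf ∅ (disjoint_empty_right _) ?_ (by simp) (by simp; omega)
    rw [union_empty]
    exact adm_Icc _ _ _ (by omega)
  obtain ⟨B0, hB0, hQ0, hinv0⟩ := hE 0 (by omega)
  obtain ⟨B1, hB1, hQ1, hinv1⟩ := hE 1 (by omega)
  -- the first comparison
  have e0 : B = B0 := by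
    refine hS.eq hB hB0 (T := Q a ((Icc 1 (2 * f - 1) ×ˢ Sg) ∪ {(2 * f, 1)})) ?_
      ((Q_mono ?_).trans hQ) ((Q_mono ?_).trans hQ0)
    · rw [h.cardQ hJ1, card_union_of_disjoint, card_product, card_Sg h, card_singleton,
        Nat.card_Icc]
      · omega
      · rw [disjoint_singleton_right, mem_product, mem_Icc]
        simp only
        omega
      · rintro ⟨j, ε⟩ hj
        rw [mem_union, mem_product, mem_singleton, Prod.mk.injEq, mem_Icc] at hj
        rw [mem_product, mem_Icc]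
        rcases hj with hj | ⟨h1, h2⟩
        · exact ⟨⟨hj.1.1, by have := hj.1.2; simp only at this ⊢; omega⟩, hj.2⟩
        · exact ⟨⟨by simp only; omega, by simp only; omega⟩, mem_Sg.2 (Or.inl h2)⟩
    · rintro ⟨j, ε⟩ hj
      rw [mem_union, mem_product, mem_singleton, Prod.mk.injEq, mem_Icc] at hj
      rw [mem_product, mem_Icc]
      rcases hj with hj | ⟨h1, h2⟩
      · exact ⟨⟨hj.1.1, by have := hj.1.2; simp only at this ⊢; omega⟩, hj.2⟩
      · exact ⟨⟨by simp only; omega, by simp only; omega⟩, mem_Sg.2 (Or.inl h2)⟩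
    · rintro ⟨j, ε⟩ hj
      rw [mem_union, mem_product, mem_singleton, Prod.mk.injEq, mem_Icc] at hj
      rw [DD, mem_union, mem_union, mem_product, mem_Icc, mem_insert, mem_singleton,
        Prod.mk.injEq, Prod.mk.injEq]
      rcases hj with hj | ⟨h1, h2⟩
      · left
        exact ⟨⟨by have := hj.1.1; simp only at this ⊢; omega,
          by have := hj.1.2; simp only at this ⊢; omega⟩, hj.2⟩
      · right; left; left
        exact ⟨by omega, h2⟩
  have e1 : B = B1 := by
    refine hS.eq hB hB1 (T := Q a ((Icc 2 (2 * f) ×ˢ Sg) ∪ {(1, 1)})) ?_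
      ((Q_mono ?_).trans hQ) ((Q_mono ?_).trans hQ1)
    · rw [h.cardQ hJ1, card_union_of_disjoint, card_product, card_Sg h, card_singleton,
        Nat.card_Icc]
      · omega
      · rw [disjoint_singleton_right, mem_product, mem_Icc]
        simp only
        omega
      · rintro ⟨j, ε⟩ hj
        rw [mem_union, mem_product, mem_singleton, Prod.mk.injEq, mem_Icc] at hj
        rw [mem_product, mem_Icc]
        rcases hj with hj | ⟨h1, h2⟩
        · exact ⟨⟨by have := hj.1.1; simp only at this ⊢; omega, hj.1.2⟩, hj.2⟩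
        · exact ⟨⟨by simp only; omega, by simp only; omega⟩, mem_Sg.2 (Or.inl h2)⟩
    · rintro ⟨j, ε⟩ hj
      rw [mem_union, mem_product, mem_singleton, Prod.mk.injEq, mem_Icc] at hj
      rw [mem_product, mem_Icc]
      rcases hj with hj | ⟨h1, h2⟩
      · exact ⟨⟨by have := hj.1.1; simp only at this ⊢; omega, hj.1.2⟩, hj.2⟩
      · exact ⟨⟨by simp only; omega, by simp only; omega⟩, mem_Sg.2 (Or.inl h2)⟩
    · rintro ⟨j, ε⟩ hj
      rw [mem_union, mem_product, mem_singleton, Prod.mk.injEq, mem_Icc] at hj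
      rw [DD, mem_union, mem_union, mem_product, mem_Icc, mem_insert, mem_singleton,
        Prod.mk.injEq, Prod.mk.injEq]
      rcases hj with hj | ⟨h1, h2⟩
      · left
        exact ⟨⟨by have := hj.1.1; simp only at this ⊢; omega,
          by have := hj.1.2; simp only at this ⊢; omega⟩, hj.2⟩
      · right; left; right
        exact ⟨h1, h2⟩
  subst e0
  subst e1
  have hstep : ∀ x : F, x ≠ 0 → some x ∈ B → some (a ^ 2 * x) ∈ B := by
    intro x hx hxB
    have h1 := hinv1 _ (hinv0 _ hxB)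
    rw [iv_some hx, iv_some (div_ne_zero (pow_ne_zero _ (pow_ne_zero _ h.ne)) hx)] at h1
    convert h1 using 2
    have := h.ne
    field_simp
    ring
  have hall : ∀ n : ℕ, some (a ^ (n + 1)) ∈ B ∧ some (a ^ (n + 2)) ∈ B := by
    intro n
    induction n with
    | zero =>
      constructor
      · have := hQ (mem_Q (a := a) (j := 1) (ε := 1) (mem_product.2 ⟨mem_Icc.2
          ⟨by simp only; omega, by simp only; omega⟩, mem_Sg.2 (Or.inl rfl)⟩))
        simpa using this
      · have := hQ (mem_Q (a := a) (j := 2) (ε := 1) (mem_product.2 ⟨mem_Icc.2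
          ⟨by simp only; omega, by simp only; omega⟩, mem_Sg.2 (Or.inl rfl)⟩))
        simpa using this
    | succ n ih =>
      refine ⟨ih.2, ?_⟩
      have := hstep _ (pow_ne_zero _ h.ne) ih.1
      convert this using 2
      ring
  refine ⟨B, hB, fun x => ?_⟩
  cases x with
  | none => exact hQ (none_mem_Q _ _)
  | some x =>
    by_cases hx : x = 0
    · rw [hx]; exact hQ (zero_mem_Q _ _)
    · obtain ⟨n, hn, rfl⟩ := h.gen x hx
      obtain ⟨n', rfl⟩ : ∃ n', n = n' + 1 := ⟨n - 1, by omega⟩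
      exact (hall n').1

end Pool.Agent.Helper40K9.SR
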