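import Pool.Agent.Helper40K9.SR.Geo

/-! Steiner systems and reflections: block size `t + 1`, characteristic two, dilations -/

set_option autoImplicit false
set_option linter.unusedSectionVars false

open Finset

namespace Pool.Agent.Helper40K9.SR

section gen

variable {X : Type*} [DecidableEq X] [Fintype X] {t k : ℕ} {𝓑 : Set (Finset X)}

lemma even_of_free (h : IsSteiner t k 𝓑) (ht : Even t) (htX : t ≤ Fintype.card X) (a : X → X)
    (ha : ∀ x, a (a x) = x) (pa : Pres 𝓑 a) (hα : ∀ x, a x ≠ x) : Even k := by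
  obtain ⟨s, rfl⟩ := ht
  obtain ⟨Z, -, hZa, hZc⟩ := exists_inv a ha univ (fun x _ => mem_univ _) (fun x _ => hα x) s
    (by rw [card_univ]; omega)
  obtain ⟨B, ⟨hB, hTB⟩, -⟩ := h.unique Z (by omega)
  have hBa : ∀ x ∈ B, a x ∈ B :=
    h.stab pa (image_invol_mem a ha) hB (by omega : s + s ≤ Z.card) hTB (fun x hx => hTB (hZa x hx))
  have := even_free a ha hα B hBa
  rwa [h.card B hB] at this

lemma even_of_two (h : IsSteiner t k 𝓑) (ht : Even t) (ht0 : 0 < t) (htX : t ≤ Fintype.card X)
    (a : X → X) (ha : ∀ x, a (a x) = x) (pa : Pres 𝓑 a) (o α : X) (hoα : o ≠ α)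
    (hα : ∀ x, a x = x ↔ x = o ∨ x = α) : Even k := by
  obtain ⟨s, rfl⟩ := ht
  have hao : a o = o := (hα o).2 (Or.inl rfl)
  have h1 : ∀ x ∈ ((univ.erase α).erase o : Finset X), a x ∈ (univ.erase α).erase o := by
    intro x hx
    rw [mem_erase, mem_erase] at hx ⊢
    refine ⟨fun hc => hx.1 ?_, fun hc => hx.2.1 ?_, mem_univ _⟩
    · rw [← ha x, hc, hao]
    · rw [← ha x, hc]; exact (hα α).2 (Or.inr rfl)
  obtain ⟨Z, hZ, hZa, hZc⟩ := exists_inv a ha ((univ.erase α).erase o) h1
    (fun x hx hc => by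
      rw [mem_erase, mem_erase] at hx
      rcases (hα x).1 hc with h | h
      · exact hx.1 h
      · exact hx.2.1 h) (s - 1) (by
      rw [card_erase_of_mem (by rw [mem_erase]; exact ⟨hoα, mem_univ _⟩),
        card_erase_of_mem (mem_univ _), card_univ]; omega)
  have hαZ : α ∉ Z := fun hc => by
    have := hZ hc
    rw [mem_erase, mem_erase] at this
    exact this.2.1 rfl
  have hoZ : o ∉ insert α Z := fun hc => by
    rcases mem_insert.1 hc with hc | hc
    · exact hoα hc
    · have := hZ hc
      rw [mem_erase] at this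
      exact this.1 rfl
  have hc : (insert o (insert α Z)).card = s + s := by
    rw [card_insert_of_notMem hoZ, card_insert_of_notMem hαZ, hZc]; omega
  obtain ⟨B, ⟨hB, hTB⟩, -⟩ := h.unique _ hc
  have hoB : o ∈ B := hTB (mem_insert_self _ _)
  have hαB : α ∈ B := hTB (mem_insert_of_mem (mem_insert_self _ _))
  have hBa : ∀ x ∈ B, a x ∈ B := by
    refine h.stab pa (image_invol_mem a ha) hB hc.ge hTB ?_
    intro x hx
    rcases mem_insert.1 hx with rfl | hx
    · rw [hao]; exact hoB
    rcases mem_insert.1 hx with rfl | hx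
    · rw [(hα _).2 (Or.inr rfl)]; exact hαB
    · exact hTB (mem_insert_of_mem (mem_insert_of_mem (hZa x hx)))
  have := (even_two a ha o α hoα hα B hBa).2 ⟨fun _ => hαB, fun _ => hoB⟩
  rwa [h.card B hB] at this

lemma odd_of_one (h : IsSteiner t k 𝓑) (ht : Odd t) (htX : t ≤ Fintype.card X)
    (a : X → X) (ha : ∀ x, a (a x) = x) (pa : Pres 𝓑 a) (α : X)
    (hα : ∀ x, a x = x ↔ x = α) : Odd k := by
  obtain ⟨s, rfl⟩ := ht
  have h1 : ∀ x ∈ (univ.erase α : Finset X), a x ∈ univ.erase α := by
    intro x hx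
    rw [mem_erase] at hx ⊢
    refine ⟨fun hc => hx.1 ?_, mem_univ _⟩
    have := (hα α).2 rfl
    rw [← ha x, hc, this]
  obtain ⟨Z, hZ, hZa, hZc⟩ := exists_inv a ha (univ.erase α) h1
    (fun x hx hc => (mem_erase.1 hx).1 ((hα x).1 hc)) s (by
      rw [card_erase_of_mem (mem_univ _), card_univ]; omega)
  have hc : (insert α Z).card = 2 * s + 1 := by
    rw [card_insert_of_notMem (fun hc => (mem_erase.1 (hZ hc)).1 rfl), hZc]
  obtain ⟨B, ⟨hB, hTB⟩, -⟩ := h.unique _ hc
  have hBa : ∀ x ∈ B, a x ∈ B := by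
    refine h.stab pa (image_invol_mem a ha) hB hc.ge hTB ?_
    intro x hx
    rcases mem_insert.1 hx with rfl | hx
    · rw [(hα _).2 rfl]; exact hTB (mem_insert_self _ _)
    · exact hTB (mem_insert_of_mem (hZa x hx))
  have := (odd_iff_one a ha α hα B hBa).2 (hTB (mem_insert_self _ _))
  rwa [h.card B hB] at this

end gen

variable {F : Type*} [Field F] [DecidableEq F] {t k : ℕ} {𝓑 : Set (Finset (Option F))}

/-- **Strength `3` modulo `4`, block size `t + 1`.** -/
theorem three_mod_four {a : F} {m n : ℕ} (h : Prim a m) (hmn : m = 2 * n)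
    (hS : IsSteiner t (t + 1) 𝓑)
    (pn : Pres 𝓑 (Option.map (fun x => -x)))
    (pv : ∀ c : F, c ≠ 0 → Pres 𝓑 (iv (c ^ 2))) (f : ℕ) (hf : 1 ≤ f) (ht : t = 4 * f + 3)
    (hm : 2 * f + 1 < m) : False := by
  have hk : Even (t + 1) := by rw [ht]; exact ⟨2 * f + 2, by ring⟩
  have hfn : f + 1 ≤ n := by omega
  have hadm : Adm m (Icc 0 (2 * f) ∪ {f + n}) := by
    intro i hi j hj hij
    have hlt : ∀ i ∈ Icc 0 (2 * f) ∪ {f + n}, i < m := by
      intro i hi
      rw [mem_union, mem_Icc, mem_singleton] at hi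
      omega
    exact hij.eq_of_lt_of_lt (hlt i hi) (hlt j hj)
  have hdis : Disjoint (Icc 0 (2 * f)) {f + n} := by
    rw [disjoint_singleton_right, mem_Icc]; omega
  have hJ1 : Adm m (Icc 1 (2 * f) ∪ {f + n}) := fun i hi j hj hij =>
    hadm i (by rw [mem_union, mem_Icc] at hi ⊢; rcases hi with hi | hi
               · exact Or.inl ⟨by omega, hi.2⟩
               · exact Or.inr hi) j
      (by rw [mem_union, mem_Icc] at hj ⊢; rcases hj with hj | hj
          · exact Or.inl ⟨by omega, hj.2⟩
          · exact Or.inr hj) hij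
  have hdis1 : Disjoint (Icc 1 (2 * f)) {f + n} := by
    rw [disjoint_singleton_right, mem_Icc]; omega
  obtain ⟨B, hB, hQ, -⟩ := neg_full h hS hk pn hJ1 (by
    rw [card_union_of_disjoint hdis1, Nat.card_Icc, card_singleton]; omega)
  obtain ⟨B0, hB0, hQ0, -⟩ := geo_full h hS hk pv 0 f hf {f + n} (by rwa [zero_add])
    (by rwa [zero_add]) (by
      intro j hj ε hε
      rw [mem_singleton] at hj
      subst hj
      refine ⟨f + n, mem_singleton_self _, -ε, mem_Sg.2 ?_, ?_⟩
      · rcases mem_Sg.1 hε with h | h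
        · exact Or.inr (by rw [h])
        · exact Or.inl (by rw [h, neg_neg])
      · have hne : ε * a ^ (f + n) ≠ 0 := mul_ne_zero (Sg_ne hε) (pow_ne_zero _ h.ne)
        have hεε : ε * ε = 1 := by
          rcases mem_Sg.1 hε with rfl | rfl <;> ring
        have h2 : a ^ (2 * n) = -1 := by rw [← hmn]; exact h.neg
        rw [div_eq_iff hne, zero_add]
        calc (a ^ f) ^ 2 = -(1 : F) * (a ^ (2 * n)) * (a ^ f) ^ 2 := by rw [h2]; ring
          _ = -ε * a ^ (f + n) * (ε * a ^ (f + n)) := by
            rw [← hεε]; ring) (by rw [card_singleton]; omega)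
  have e0 : B = B0 := by
    refine hS.eq hB hB0 (T := Q a (((Icc 1 (2 * f - 1) ∪ {f + n}) ×ˢ Sg) ∪ {(2 * f, 1)})) ?_
      ((Q_mono ?_).trans hQ) ((Q_mono ?_).trans hQ0)
    · rw [h.cardQ hJ1, card_union_of_disjoint, card_product, card_Sg h, card_singleton,
        card_union_of_disjoint, Nat.card_Icc, card_singleton]
      · omega
      · rw [disjoint_singleton_right, mem_Icc]; omega
      · rw [disjoint_singleton_right, mem_product, mem_union, mem_Icc, mem_singleton]
        simp only
        omega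
      · rintro ⟨j, ε⟩ hj
        rw [mem_union, mem_product, mem_singleton, Prod.mk.injEq, mem_union, mem_Icc,
          mem_singleton] at hj
        rw [mem_product, mem_union, mem_Icc, mem_singleton]
        rcases hj with ⟨hj | hj, hε⟩ | ⟨h1, h2⟩
        · exact ⟨Or.inl ⟨hj.1, by have := hj.2; simp only at this ⊢; omega⟩, hε⟩
        · exact ⟨Or.inr hj, hε⟩
        · exact ⟨Or.inl ⟨by simp only; omega, by simp only; omega⟩, mem_Sg.2 (Or.inl h2)⟩
    · rintro ⟨j, ε⟩ hj
      rw [mem_union, mem_product, mem_singleton, Prod.mk.injEq, mem_union, mem_Icc,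
        mem_singleton] at hj
      rw [mem_product, mem_union, mem_Icc, mem_singleton]
      rcases hj with ⟨hj | hj, hε⟩ | ⟨h1, h2⟩
      · exact ⟨Or.inl ⟨hj.1, by have := hj.2; simp only at this ⊢; omega⟩, hε⟩
      · exact ⟨Or.inr hj, hε⟩
      · exact ⟨Or.inl ⟨by simp only; omega, by simp only; omega⟩, mem_Sg.2 (Or.inl h2)⟩
    · rintro ⟨j, ε⟩ hj
      rw [mem_union, mem_product, mem_singleton, Prod.mk.injEq, mem_union, mem_Icc,
        mem_singleton] at hj
      rw [DD, mem_union, mem_union, mem_product, mem_Icc, mem_insert, mem_singleton,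
        Prod.mk.injEq, Prod.mk.injEq, mem_product, mem_singleton]
      rcases hj with ⟨hj | hj, hε⟩ | ⟨h1, h2⟩
      · left
        exact ⟨⟨by have := hj.1; simp only at this ⊢; omega,
          by have := hj.2; simp only at this ⊢; omega⟩, hε⟩
      · right; right
        exact ⟨hj, hε⟩
      · right; left; left
        exact ⟨by omega, h2⟩
  subst e0
  have hbig : Q a (((Icc 1 (2 * f) ∪ {f + n}) ×ˢ Sg) ∪ {(0, 1)}) ⊆ B := by
    intro x hx
    rcases Q_cases hx with rfl | rfl | ⟨j, ε, hj, rfl⟩
    · exact hQ (none_mem_Q _ _)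
    · exact hQ (zero_mem_Q _ _)
    · rw [mem_union, mem_singleton, Prod.mk.injEq] at hj
      rcases hj with hj | ⟨rfl, rfl⟩
      · exact hQ (mem_Q hj)
      · refine hQ0 (mem_Q ?_)
        rw [DD, mem_union, mem_union, mem_insert, mem_singleton]
        right; left; right; rfl
  have h1 := card_le_card hbig
  rw [h.cardQ hadm, card_union_of_disjoint, card_product, card_Sg h, card_singleton,
    card_union_of_disjoint hdis1, Nat.card_Icc, card_singleton, hS.card B hB] at h1
  · omega
  · rw [disjoint_singleton_right, mem_product, mem_union, mem_Icc, mem_singleton]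
    simp only
    omega
  · rintro ⟨j, ε⟩ hj
    rw [mem_union, mem_product, mem_singleton, Prod.mk.injEq, mem_union, mem_Icc,
      mem_singleton] at hj
    rw [mem_product, mem_union, mem_Icc, mem_singleton]
    rcases hj with ⟨hj | hj, hε⟩ | ⟨h1, h2⟩
    · exact ⟨Or.inl ⟨by simp only; omega, hj.2⟩, hε⟩
    · exact ⟨Or.inr hj, hε⟩
    · exact ⟨Or.inl ⟨by simp only; omega, by simp only; omega⟩, mem_Sg.2 (Or.inl h2)⟩

/-- **Characteristic two.** -/
theorem char_two [Fintype F] (h2 : (2 : F) = 0) (hS : IsSteiner t k 𝓑) (htk : t < k)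
    (hk : k < Fintype.card F + 1) (pa : Pres 𝓑 (Option.map (fun x => x + 1)))
    (pv : ∀ c : F, c ≠ 0 → Pres 𝓑 (iv (c ^ 2))) (hq : Even (Fintype.card F)) :
    k ≡ t [MOD 2] := by
  have hneg : ∀ x : F, -x = x := by
    intro x
    have h3 : (2 : F) * x = 0 := by rw [h2, zero_mul]
    rw [two_mul] at h3
    exact neg_eq_of_add_eq_zero_left h3
  have hadd : ∀ x : F, x + 1 + 1 = x := by
    intro x
    rw [add_assoc, one_add_one_eq_two, h2, add_zero]
  have htX : t ≤ Fintype.card (Option F) := by rw [Fintype.card_option]; omega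
  rcases Nat.even_or_odd' t with ⟨s, rfl | rfl⟩
  · by_cases hk' : Even k
    · rw [Nat.ModEq]
      obtain ⟨j, rfl⟩ := hk'
      omega
    exfalso
    rw [Nat.not_even_iff_odd] at hk'
    obtain ⟨a, ha, hinj, hgen⟩ := exists_gen (F := F)
    have hq1 : 1 < Fintype.card F := Fintype.one_lt_card
    have hzz : ∀ i j : ℤ, (some (a ^ i) : Option F) = some (a ^ j) →
        ((Fintype.card F - 1 : ℕ) : ℤ) ∣ i - j := by
      intro i j hij
      have h3 : a ^ i = a ^ j := Option.some.inj hij
      have h4 : a ^ (i - j) = 1 := by rw [zpow_sub₀ ha, h3, div_self (zpow_ne_zero _ ha)]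
      rcases Int.eq_nat_or_neg (i - j) with ⟨n, hn | hn⟩
      · rw [hn, zpow_natCast] at h4
        have := hinj n 0 (by rw [h4, pow_zero])
        rw [hn]
        exact_mod_cast Nat.modEq_zero_iff_dvd.1 this
      · rw [hn, zpow_neg, zpow_natCast, inv_eq_one] at h4
        have := hinj n 0 (by rw [h4, pow_zero])
        rw [hn, dvd_neg]
        exact_mod_cast Nat.modEq_zero_iff_dvd.1 this
    obtain ⟨j, hj⟩ := hk'
    obtain ⟨r, hr⟩ := hq
    obtain ⟨B, hB, hall⟩ := chain_one hS ⟨j, hj⟩ (iv (1 ^ 2)) (iv (a ^ 2))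
      (iv_iv (pow_ne_zero 2 one_ne_zero)) (iv_iv (pow_ne_zero 2 ha)) (pv 1 one_ne_zero) (pv a ha)
      (fun i : ℤ => some (a ^ i)) (fun x => by
        simp only [zpow_zero]
        rw [iv_fix one_ne_zero, hneg, or_self]) (fun x => by
        simp only [zpow_one]
        rw [iv_fix ha, hneg, or_self]) (fun i => by
        rw [iv_some (zpow_ne_zero _ ha), one_pow, one_div, zpow_neg]) (fun i => by
        rw [iv_some (zpow_ne_zero _ ha), zpow_sub₀ ha]
        norm_cast) (Fintype.card F - 1) (by omega) hzz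
    have hne : ∀ x : F, x ≠ 0 → some x ∈ B := by
      intro x hx
      obtain ⟨n, -, rfl⟩ := hgen x hx
      have := hall n
      simpa using this
    -- translation by one
    have hadm : ∀ x ∈ B, Option.map (fun x => x + 1) x ∈ B := by
      refine hS.stab pa (fun x y hxy => ?_) hB
        (T := ((univ.erase (0 : F)).erase 1).image some) ?_ ?_ ?_
      · have := congrArg (Option.map (fun x : F => x + 1)) hxy
        cases x <;> cases y <;> simp_all
      · rw [card_image_of_injective _ (Option.some_injective F),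
          card_erase_of_mem (by simp), card_erase_of_mem (mem_univ _), card_univ]
        omega
      · intro x hx
        obtain ⟨y, hy, rfl⟩ := mem_image.1 hx
        rw [mem_erase, mem_erase] at hy
        exact hne y hy.2.1
      · intro x hx
        obtain ⟨y, hy, rfl⟩ := mem_image.1 hx
        rw [mem_erase, mem_erase] at hy
        rw [Option.map_some]
        refine hne _ (fun hc => hy.1 ?_)
        rw [← hadd y, hc, zero_add]
    have h0 : some (0 : F) ∈ B := by
      have := hadm _ (hne 1 one_ne_zero)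
      rw [Option.map_some, one_add_one_eq_two, h2] at this
      exact this
    have h3 : (univ.image (some : F → Option F)) ⊆ B := by
      intro x hx
      obtain ⟨y, -, rfl⟩ := mem_image.1 hx
      by_cases hy : y = 0
      · rw [hy]; exact h0
      · exact hne y hy
    have h4 := card_le_card h3
    rw [card_image_of_injective _ (Option.some_injective F), card_univ, hS.card B hB] at h4
    omega
  · have := odd_of_one hS ⟨s, rfl⟩ htX (Option.map (fun x => x + 1)) (fun x => by
      cases x with
      | none => rfl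
      | some x => simp only [Option.map_some]; rw [hadd]) pa none (fun x => by
      cases x with
      | none => simp
      | some x => simp)
    obtain ⟨j, rfl⟩ := this
    rw [Nat.ModEq]
    omega

/-- **Dilations.** -/
theorem dilations [Fintype F] (hS : IsSteiner t k 𝓑) (htk : t < k)
    (hk : k < Fintype.card F + 1) (pm : ∀ c : F, c ≠ 0 → Pres 𝓑 (Option.map (fun x => c * x)))
    (pv : ∀ c : F, c ≠ 0 → Pres 𝓑 (iv c)) (d : ℕ) (hd : d ∣ Fintype.card F - 1) :
    t ≠ 2 * d + 2 := by
  intro ht
  obtain ⟨a, ha, hinj, hgen⟩ := exists_gen (F := F)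
  have hq1 : 1 < Fintype.card F := Fintype.one_lt_card
  have hd0 : 0 < d := Nat.pos_of_dvd_of_pos hd (by omega)
  -- the roots of unity
  set μ : Finset F := univ.filter (fun x => x ^ d = 1) with hμ
  have hmemμ : ∀ x, x ∈ μ ↔ x ^ d = 1 := fun x => by simp [hμ]
  have hμ0 : ∀ x ∈ μ, x ≠ 0 := by
    rintro x hx rfl
    rw [hmemμ, zero_pow hd0.ne'] at hx
    exact zero_ne_one hx
  have hμc : μ.card = d := by
    obtain ⟨e, he⟩ := hd
    have he0 : 0 < e := by
      rcases Nat.eq_zero_or_pos e with h | h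
      · rw [h] at he; omega
      · exact h
    have h1 : μ = (range d).image (fun j => a ^ (e * j)) := by
      ext x
      rw [hmemμ, mem_image]
      constructor
      · intro hx
        have hx0 : x ≠ 0 := by
          rintro rfl
          rw [zero_pow hd0.ne'] at hx
          exact zero_ne_one hx
        obtain ⟨n, -, rfl⟩ := hgen x hx0
        have h2 := hinj (n * d) 0 (by rw [pow_mul, hx, pow_zero])
        rw [he, Nat.modEq_zero_iff_dvd, mul_comm n d] at h2
        obtain ⟨c, hc⟩ := Nat.dvd_of_mul_dvd_mul_left hd0 h2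
        refine ⟨c % d, mem_range.2 (Nat.mod_lt _ hd0), ?_⟩
        have h3 : a ^ (d * e) = 1 := by
          rw [← he]; exact FiniteField.pow_card_sub_one_eq_one a ha
        show a ^ (e * (c % d)) = a ^ n
        rw [hc]
        conv_rhs => rw [← Nat.div_add_mod c d, mul_add, pow_add, ← mul_assoc, mul_comm e d,
          pow_mul, h3, one_pow, one_mul]
      · rintro ⟨j, -, rfl⟩
        have h3 : a ^ (d * e) = 1 := by
          rw [← he]; exact FiniteField.pow_card_sub_one_eq_one a ha
        rw [← pow_mul, show e * j * d = d * e * j by ring, pow_mul, h3, one_pow]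
    rw [h1, card_image_of_injOn, card_range]
    intro i hi j hj hij
    rw [coe_range, Set.mem_Iio] at hi hj
    have h2 := hinj _ _ hij
    rw [he] at h2
    have h3 : e * i = e * j := h2.eq_of_lt_of_lt (by
      rw [mul_comm d e]; exact Nat.mul_lt_mul_of_pos_left hi he0) (by
      rw [mul_comm d e]; exact Nat.mul_lt_mul_of_pos_left hj he0)
    exact Nat.eq_of_mul_eq_mul_left he0 h3
  -- cosets
  let co : F → Finset (Option F) := fun z => μ.image (fun x => some (z * x))
  have hcc : ∀ z, z ≠ 0 → (co z).card = d := by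
    intro z hz
    rw [← hμc]
    refine card_image_of_injective _ (fun x y hxy => ?_)
    exact mul_left_cancel₀ hz (Option.some.inj hxy)
  have hmemco : ∀ z x, some x ∈ co z ↔ ∃ ζ ∈ μ, z * ζ = x := by
    intro z x
    simp only [co, mem_image, Option.some.injEq]
  have hnoneco : ∀ z, none ∉ co z := by
    intro z
    simp only [co, mem_image]
    rintro ⟨ζ, -, hh⟩
    simp at hh
  have hzeroco : ∀ z, z ≠ 0 → some 0 ∉ co z := by
    intro z hz
    rw [hmemco]
    rintro ⟨ζ, hζ, hh⟩
    exact mul_ne_zero hz (hμ0 ζ hζ) hh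
  have hdis : ∀ z w, z ≠ 0 → w ≠ 0 → (z / w) ^ d ≠ 1 → Disjoint (co z) (co w) := by
    intro z w hz hw hzw
    rw [Finset.disjoint_left]
    intro x hx hx'
    cases x with
    | none => exact hnoneco _ hx
    | some x =>
      rw [hmemco] at hx hx'
      obtain ⟨ζ, hζ, rfl⟩ := hx
      obtain ⟨ξ, hξ, hh⟩ := hx'
      apply hzw
      have h1 : z / w = ξ / ζ := by
        rw [div_eq_div_iff hw (hμ0 ζ hζ)]
        linear_combination -hh
      rw [h1, div_pow, (hmemμ _).1 hζ, (hmemμ _).1 hξ, div_one]
  -- the sets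
  let TT : F → F → Finset (Option F) := fun z w => insert none (insert (some 0) (co z ∪ co w))
  have hTTc : ∀ z w, z ≠ 0 → w ≠ 0 → (z / w) ^ d ≠ 1 → (TT z w).card = t := by
    intro z w hz hw hzw
    simp only [TT]
    rw [card_insert_of_notMem, card_insert_of_notMem, card_union_of_disjoint (hdis z w hz hw hzw),
      hcc z hz, hcc w hw, ht]
    · ring
    · rw [mem_union, not_or]
      exact ⟨hzeroco z hz, hzeroco w hw⟩
    · rw [mem_insert, mem_union]
      rintro (h | h | h)
      · simp at h
      · exact hnoneco _ h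
      · exact hnoneco _ h
  have had : (1 / a) ^ d ≠ 1 := by
    intro hc
    rw [div_pow, one_pow, div_eq_iff (pow_ne_zero _ ha), one_mul] at hc
    have h1 := hinj d 0 (by rw [pow_zero]; exact hc.symm)
    have h2 := Nat.le_of_dvd hd0 (Nat.modEq_zero_iff_dvd.1 h1)
    omega
  obtain ⟨B, ⟨hB, hTB⟩, -⟩ := hS.unique _ (hTTc 1 a one_ne_zero ha had)
  have hnB : none ∈ B := hTB (mem_insert_self _ _)
  have h0B : some 0 ∈ B := hTB (mem_insert_of_mem (mem_insert_self _ _))
  have h1B : co 1 ⊆ B := fun x hx => hTB (mem_insert_of_mem (mem_insert_of_mem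
    (mem_union_left _ hx)))
  have haB : co a ⊆ B := fun x hx => hTB (mem_insert_of_mem (mem_insert_of_mem
    (mem_union_right _ hx)))
  have hmulinj : ∀ c : F, c ≠ 0 → Function.Injective (Option.map (fun x : F => c * x)) := by
    intro c hc
    exact Option.map_injective (mul_right_injective₀ hc)
  have hcomul : ∀ ζ ∈ μ, ∀ z, ∀ x ∈ co z, Option.map (fun x => ζ * x) x ∈ co z := by
    intro ζ hζ z x hx
    cases x with
    | none => exact absurd hx (hnoneco z)
    | some x =>
      rw [hmemco] at hx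
      obtain ⟨ξ, hξ, rfl⟩ := hx
      rw [Option.map_some, hmemco]
      refine ⟨ζ * ξ, (hmemμ _).2 ?_, by ring⟩
      rw [mul_pow, (hmemμ _).1 hζ, (hmemμ _).1 hξ, one_mul]
  have hBμ : ∀ ζ ∈ μ, ∀ x ∈ B, Option.map (fun x => ζ * x) x ∈ B := by
    intro ζ hζ
    refine hS.stab (pm ζ (hμ0 ζ hζ)) (hmulinj ζ (hμ0 ζ hζ)) hB
      (hTTc 1 a one_ne_zero ha had).ge hTB ?_
    intro x hx
    simp only [TT, mem_insert, mem_union] at hx
    rcases hx with rfl | rfl | hx | hx
    · exact hnB
    · simpa using h0B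
    · exact h1B (hcomul ζ hζ 1 x hx)
    · exact haB (hcomul ζ hζ a x hx)
  -- a further point
  obtain ⟨w', hw', hwT⟩ : ∃ w ∈ B, w ∉ TT 1 a := by
    by_contra hcon
    push Not at hcon
    have h1 := card_le_card (show B ⊆ TT 1 a from hcon)
    rw [hTTc 1 a one_ne_zero ha had, hS.card B hB] at h1
    omega
  cases w' with
  | none => exact hwT (mem_insert_self _ _)
  | some w =>
  have hw0 : w ≠ 0 := by
    rintro rfl
    exact hwT (mem_insert_of_mem (mem_insert_self _ _))
  simp only [TT, mem_insert, mem_union, not_or] at hwT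
  have hco_iff : ∀ z x : F, z ≠ 0 → (some x ∈ co z ↔ (x / z) ^ d = 1) := by
    intro z x hz
    rw [hmemco]
    constructor
    · rintro ⟨ζ, hζ, rfl⟩
      rw [mul_div_cancel_left₀ _ hz]
      exact (hmemμ _).1 hζ
    · intro hx
      exact ⟨x / z, (hmemμ _).2 hx, by field_simp⟩
  have hw1 : (w / 1) ^ d ≠ 1 := fun hc => hwT.2.2.1 ((hco_iff 1 w one_ne_zero).2 hc)
  have hwa : (w / a) ^ d ≠ 1 := fun hc => hwT.2.2.2 ((hco_iff a w ha).2 hc)
  have hwB : co w ⊆ B := by
    intro x hx
    cases x with
    | none => exact absurd hx (hnoneco _)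
    | some x =>
      rw [hmemco] at hx
      obtain ⟨ζ, hζ, rfl⟩ := hx
      have := hBμ ζ hζ _ hw'
      rw [Option.map_some, mul_comm] at this
      exact this
  have hinvco : ∀ z y : F, z ≠ 0 → y ≠ 0 → ∀ x ∈ co z, iv (z * y) x ∈ co y := by
    intro z y hz hy x hx
    cases x with
    | none => exact absurd hx (hnoneco _)
    | some x =>
      rw [hmemco] at hx
      obtain ⟨ζ, hζ, rfl⟩ := hx
      rw [iv_some (mul_ne_zero hz (hμ0 ζ hζ)), hmemco]
      refine ⟨ζ⁻¹, (hmemμ _).2 ?_, ?_⟩
      · rw [inv_pow, (hmemμ _).1 hζ, inv_one]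
      · have := hμ0 ζ hζ
        field_simp
  have hinv : ∀ z y : F, z ≠ 0 → y ≠ 0 → (z / y) ^ d ≠ 1 → co z ⊆ B → co y ⊆ B →
      ∀ x ∈ B, iv (z * y) x ∈ B := by
    intro z y hz hy hzy hzB hyB
    refine hS.stab (pv _ (mul_ne_zero hz hy)) (image_invol_mem _ (iv_iv (mul_ne_zero hz hy))) hB
      (hTTc z y hz hy hzy).ge ?_ ?_
    · intro x hx
      simp only [TT, mem_insert, mem_union] at hx
      rcases hx with rfl | rfl | hx | hx
      · exact hnB
      · exact h0B
      · exact hzB hx
      · exact hyB hx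
    · intro x hx
      simp only [TT, mem_insert, mem_union] at hx
      rcases hx with rfl | rfl | hx | hx
      · simpa using h0B
      · simpa using hnB
      · exact hyB (hinvco z y hz hy x hx)
      · rw [mul_comm z y]
        exact hzB (hinvco y z hy hz x hx)
  have hi1 := hinv w 1 hw0 one_ne_zero hw1 hwB h1B
  have hi2 := hinv w a hw0 ha hwa hwB haB
  have hstep : ∀ x : F, x ≠ 0 → some x ∈ B → some (a * x) ∈ B := by
    intro x hx hxB
    have h1 := hi2 _ (hi1 _ hxB)
    rw [iv_some hx, iv_some (div_ne_zero (mul_ne_zero hw0 one_ne_zero) hx)] at h1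
    convert h1 using 2
    field_simp
  have hall : ∀ n : ℕ, some (a ^ n) ∈ B := by
    intro n
    induction n with
    | zero =>
      rw [pow_zero]
      refine h1B ((hco_iff 1 1 one_ne_zero).2 ?_)
      rw [div_one, one_pow]
    | succ n ih =>
      have := hstep _ (pow_ne_zero _ ha) ih
      rwa [← pow_succ'] at this
  have huniv : (univ : Finset (Option F)) ⊆ B := by
    intro x _
    cases x with
    | none => exact hnB
    | some x =>
      by_cases hx : x = 0
      · rw [hx]; exact h0B
      · obtain ⟨n, -, rfl⟩ := hgen x hx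
        exact hall n
  have h1 := card_le_card huniv
  rw [card_univ, Fintype.card_option, hS.card B hB] at h1
  omega

end Pool.Agent.Helper40K9.SR
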