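import Pool.Agent.Helper40K9.SR.Chain

/-! Steiner systems and reflections: two involutory automorphisms -/

set_option autoImplicit false
set_option linter.unusedSectionVars false

open Finset

namespace Pool.Agent.Helper40K9.SR

variable {X : Type*} [DecidableEq X]

/-- the orbit of the fixed point of an involution under the product with another one -/
lemma orbit_param [Finite X] (a b : Equiv.Perm X) (ha : a * a = 1) (hb : b * b = 1) (α : X)
    (hα : a α = α) (hu : ∀ j : ℤ, a (((b * a) ^ j) α) = ((b * a) ^ j) α → ((b * a) ^ j) α = α) :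
    ∃ φ : ℤ → X, φ 0 = α ∧ b (φ 1) = φ 1 ∧ (∀ i, a (φ i) = φ (-i)) ∧ (∀ i, b (φ i) = φ (2 - i)) ∧
      (∀ i j : ℤ, φ i = φ j → ((Function.minimalPeriod (b * a) α : ℕ) : ℤ) ∣ i - j) ∧
      (∀ i, ∃ j : ℤ, φ i = ((b * a) ^ j) α) ∧ 0 < Function.minimalPeriod (b * a) α := by
  set ρ := b * a with hρ
  set ℓ := Function.minimalPeriod ρ α with hℓ
  have hℓ0 : 0 < ℓ := Function.minimalPeriod_pos_of_mem_periodicPts
    (Function.Injective.mem_periodicPts ρ.injective α)
  have hdvd : ∀ n : ℤ, (ρ ^ n) α = α ↔ (ℓ : ℤ) ∣ n := by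
    intro n
    have := MulAction.zpow_smul_eq_iff_minimalPeriod_dvd (a := ρ) (b := α) (n := n)
    simpa [Equiv.Perm.smul_def] using this
  have hψ : ∀ i j : ℤ, (ρ ^ i) α = (ρ ^ j) α ↔ (ℓ : ℤ) ∣ i - j := by
    intro i j
    rw [← hdvd, zpow_sub, Equiv.Perm.mul_apply]
    constructor
    · intro h
      have h2 : (ρ ^ j)⁻¹ ((ρ ^ i) α) = (ρ ^ j)⁻¹ ((ρ ^ j) α) := by rw [h]
      rw [← Equiv.Perm.mul_apply, ← Equiv.Perm.mul_apply, inv_mul_cancel, Equiv.Perm.one_apply] at h2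
      have hcomm : ρ ^ i * (ρ ^ j)⁻¹ = (ρ ^ j)⁻¹ * ρ ^ i := by
        rw [← zpow_neg, ← zpow_add, ← zpow_add, add_comm]
      rw [← Equiv.Perm.mul_apply, hcomm]
      exact h2
    · intro h
      have hcomm : ρ ^ i * (ρ ^ j)⁻¹ = (ρ ^ j)⁻¹ * ρ ^ i := by
        rw [← zpow_neg, ← zpow_add, ← zpow_add, add_comm]
      rw [← Equiv.Perm.mul_apply, hcomm, Equiv.Perm.mul_apply, Equiv.Perm.inv_eq_iff_eq] at h
      exact h.symm ▸ rfl
  have hai : a⁻¹ = a := inv_eq_of_mul_eq_one_left ha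
  have hbi : b⁻¹ = b := inv_eq_of_mul_eq_one_left hb
  have hca : a * ρ * a⁻¹ = ρ⁻¹ := by
    rw [hρ, mul_inv_rev, hbi, hai, mul_assoc, mul_assoc, ha, mul_one]
  have hcb : b * ρ * b⁻¹ = ρ⁻¹ := by
    rw [hρ, mul_inv_rev, hbi, hai, ← mul_assoc, hb, one_mul]
  have haψ : ∀ j : ℤ, a ((ρ ^ j) α) = (ρ ^ (-j)) α := by
    intro j
    have h1 : a * ρ ^ j * a⁻¹ = ρ ^ (-j) := by
      rw [← conj_zpow, hca, inv_zpow, zpow_neg]
    rw [← h1, hai, Equiv.Perm.mul_apply, Equiv.Perm.mul_apply, hα]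
  have hbα : b α = (ρ ^ (1 : ℤ)) α := by
    rw [zpow_one, hρ, Equiv.Perm.mul_apply, hα]
  have hbψ : ∀ j : ℤ, b ((ρ ^ j) α) = (ρ ^ (1 - j)) α := by
    intro j
    have h1 : b * ρ ^ j * b⁻¹ = ρ ^ (-j) := by
      rw [← conj_zpow, hcb, inv_zpow, zpow_neg]
    have h2 : b * ρ ^ j = ρ ^ (-j) * b := by
      rw [← h1, inv_mul_cancel_right]
    rw [← Equiv.Perm.mul_apply, h2, Equiv.Perm.mul_apply, hbα, ← Equiv.Perm.mul_apply, ← zpow_add]
    congr 2
    ring
  -- the length is odd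
  obtain ⟨m, hm | hm⟩ := Nat.even_or_odd' ℓ
  · exfalso
    have h1 : a ((ρ ^ (m : ℤ)) α) = (ρ ^ (m : ℤ)) α := by
      rw [haψ, hψ, hm]
      exact ⟨-1, by push_cast; ring⟩
    have h2 := hu m h1
    rw [hdvd, hm] at h2
    have h3 := Int.le_of_dvd (by omega) h2
    push_cast at h3
    omega
  refine ⟨fun i => (ρ ^ (((m : ℤ) + 1) * i)) α, by simp, ?_, ?_, ?_, ?_, fun i => ⟨_, rfl⟩, hℓ0⟩
  · show b ((ρ ^ (((m : ℤ) + 1) * 1)) α) = (ρ ^ (((m : ℤ) + 1) * 1)) α
    rw [hbψ, hψ, hm]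
    exact ⟨-1, by push_cast; ring⟩
  · intro i
    show a ((ρ ^ (((m : ℤ) + 1) * i)) α) = (ρ ^ (((m : ℤ) + 1) * (-i))) α
    rw [haψ]
    congr 2
    ring
  · intro i
    show b ((ρ ^ (((m : ℤ) + 1) * i)) α) = (ρ ^ (((m : ℤ) + 1) * (2 - i))) α
    rw [hbψ, hψ, hm]
    exact ⟨-1, by push_cast; ring⟩
  · intro i j hij
    rw [hψ] at hij
    rw [hm] at hij ⊢
    obtain ⟨c, hc⟩ := hij
    refine ⟨2 * c - (i - j), ?_⟩
    push_cast at hc ⊢
    linear_combination 2 * hc

/-- a block containing all `φ i` has at least `ℓ` elements of this form -/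
lemma card_ge_of_range {φ : ℤ → X} {ℓ : ℕ} (hinj : ∀ i j : ℤ, φ i = φ j → (ℓ : ℤ) ∣ i - j)
    {B : Finset X} (hB : ∀ i, φ i ∈ B) : ∃ S ⊆ B, S.card = ℓ ∧ ∀ x ∈ S, ∃ i, φ i = x := by
  have h1 : Set.InjOn φ (Icc 1 (ℓ : ℤ) : Finset ℤ) := inj_on hinj (by linarith)
  refine ⟨(Icc 1 (ℓ : ℤ)).image φ, fun x hx => ?_, ?_, fun x hx => ?_⟩
  · obtain ⟨i, -, rfl⟩ := mem_image.1 hx
    exact hB i
  · rw [card_image_of_injOn h1, Int.card_Icc]
    simp
  · obtain ⟨i, -, hi⟩ := mem_image.1 hx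
    exact ⟨i, hi⟩

/-- Two involutory automorphisms with one fixed point each. -/
theorem two_one [Fintype X] {t k : ℕ} {𝓑 : Set (Finset X)} (h : IsSteiner t k 𝓑) (htk : t < k)
    (htX : t ≤ Fintype.card X)
    (a b : Equiv.Perm X) (pa : Pres 𝓑 a) (pb : Pres 𝓑 b) (ha : a * a = 1) (hb : b * b = 1)
    (α β : X) (hα : ∀ x, a x = x ↔ x = α) (hβ : ∀ x, b x = x ↔ x = β) :
    k ≡ t [MOD 2] ∨ (Even t ∧ Function.minimalPeriod (b * a) α ≤ k) := by
  have haa : ∀ x, a (a x) = x := fun x => by rw [← Equiv.Perm.mul_apply, ha, Equiv.Perm.one_apply]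
  have hbb : ∀ x, b (b x) = x := fun x => by rw [← Equiv.Perm.mul_apply, hb, Equiv.Perm.one_apply]
  rcases Nat.even_or_odd' t with ⟨s, rfl | rfl⟩
  · by_cases hk : Even k
    · left
      rw [Nat.ModEq]
      obtain ⟨j, rfl⟩ := hk
      omega
    · right
      refine ⟨by simp, ?_⟩
      rw [Nat.not_even_iff_odd] at hk
      obtain ⟨φ, h0, h1, haφ, hbφ, hinj, -, hpos⟩ := orbit_param a b ha hb α ((hα α).2 rfl)
        (fun j hj => (hα _).1 hj)
      by_contra hcon
      push Not at hcon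
      have hφ1 : φ 1 = β := (hβ _).1 h1
      obtain ⟨B, hB, hall⟩ := chain_one h hk a b haa hbb pa pb φ (fun x => by rw [h0, hα])
        (fun x => by rw [hφ1, hβ]) haφ hbφ (Function.minimalPeriod (b * a) α) (by omega) hinj
      obtain ⟨S, hS, hSc, -⟩ := card_ge_of_range hinj hall
      have h3 := card_le_card hS
      rw [h.card B hB] at h3
      omega
  · -- `t` odd
    left
    have h1 : ∀ x ∈ (univ.erase α : Finset X), a x ∈ univ.erase α := by
      intro x hx
      rw [mem_erase] at hx ⊢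
      refine ⟨fun hc => hx.1 ?_, mem_univ _⟩
      have := (hα α).2 rfl
      rw [← haa x, hc, this]
    obtain ⟨Z, hZ, hZa, hZc⟩ := exists_inv a haa (univ.erase α) h1
      (fun x hx hc => (mem_erase.1 hx).1 ((hα x).1 hc)) s (by
        rw [card_erase_of_mem (mem_univ _), card_univ]; omega)
    have hc : (insert α Z).card = 2 * s + 1 := by
      rw [card_insert_of_notMem (fun hc => (mem_erase.1 (hZ hc)).1 rfl), hZc]
    obtain ⟨B, ⟨hB, hTB⟩, -⟩ := h.unique _ hc
    have hBa : ∀ x ∈ B, a x ∈ B := by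
      refine h.stab pa a.injective hB hc.ge hTB ?_
      intro x hx
      rcases mem_insert.1 hx with rfl | hx
      · rw [(hα _).2 rfl]; exact hTB (mem_insert_self _ _)
      · exact hTB (mem_insert_of_mem (hZa x hx))
    have := (odd_iff_one a haa α hα B hBa).2 (hTB (mem_insert_self _ _))
    rw [h.card B hB] at this
    obtain ⟨j, rfl⟩ := this
    rw [Nat.ModEq]
    omega

/-- Two involutory automorphisms with two fixed points each, one of them in common. -/
theorem two_two [Fintype X] {t k : ℕ} {𝓑 : Set (Finset X)} (h : IsSteiner t k 𝓑) (ht : 0 < t)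
    (htk : t < k) (htX : t ≤ Fintype.card X)
    (a b : Equiv.Perm X) (pa : Pres 𝓑 a) (pb : Pres 𝓑 b) (ha : a * a = 1) (hb : b * b = 1)
    (o α β : X) (hoα : o ≠ α) (hoβ : o ≠ β) (hα : ∀ x, a x = x ↔ x = o ∨ x = α)
    (hβ : ∀ x, b x = x ↔ x = o ∨ x = β) :
    k ≡ t [MOD 2] ∨ (Odd t ∧ Function.minimalPeriod (b * a) α + 1 ≤ k) := by
  have haa : ∀ x, a (a x) = x := fun x => by rw [← Equiv.Perm.mul_apply, ha, Equiv.Perm.one_apply]
  have hbb : ∀ x, b (b x) = x := fun x => by rw [← Equiv.Perm.mul_apply, hb, Equiv.Perm.one_apply]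
  have hao : a o = o := (hα o).2 (Or.inl rfl)
  have hbo : b o = o := (hβ o).2 (Or.inl rfl)
  have hρo : (b * a) o = o := by rw [Equiv.Perm.mul_apply, hao, hbo]
  have hne : ∀ j : ℤ, ((b * a) ^ j) α ≠ o := by
    intro j hj
    have h1 : ((b * a) ^ j) o = o := Equiv.Perm.zpow_apply_eq_self_of_apply_eq_self hρo j
    exact hoα (((b * a) ^ j).injective (h1.trans hj.symm))
  rcases Nat.even_or_odd' t with ⟨s, rfl | rfl⟩
  · -- `t` even
    left
    have h1 : ∀ x ∈ ((univ.erase α).erase o : Finset X), a x ∈ (univ.erase α).erase o := by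
      intro x hx
      rw [mem_erase, mem_erase] at hx ⊢
      refine ⟨fun hc => hx.1 ?_, fun hc => hx.2.1 ?_, mem_univ _⟩
      · rw [← haa x, hc, hao]
      · rw [← haa x, hc]; exact (hα α).2 (Or.inr rfl)
    obtain ⟨Z, hZ, hZa, hZc⟩ := exists_inv a haa ((univ.erase α).erase o) h1
      (fun x hx hc => by
        rw [mem_erase, mem_erase] at hx
        rcases (hα x).1 hc with h | h
        · exact hx.1 h
        · exact hx.2.1 h) (s - 1) (by
        rw [card_erase_of_mem (by rw [mem_erase]; exact ⟨hoα, mem_univ _⟩),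
          card_erase_of_mem (mem_univ _), card_univ]; omega)
    have hαZ : α ∉ Z := fun hc => by
      have := hZ hc
      rw [mem_erase, mem_erase] at this
      exact this.2.1 rfl
    have hoZ : o ∉ insert α Z := fun hc => by
      rcases mem_insert.1 hc with hc | hc
      · exact hoα hc
      · have := hZ hc
        rw [mem_erase] at this
        exact this.1 rfl
    have hc : (insert o (insert α Z)).card = 2 * s := by
      rw [card_insert_of_notMem hoZ, card_insert_of_notMem hαZ, hZc]; omega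
    obtain ⟨B, ⟨hB, hTB⟩, -⟩ := h.unique _ hc
    have hoB : o ∈ B := hTB (mem_insert_self _ _)
    have hαB : α ∈ B := hTB (mem_insert_of_mem (mem_insert_self _ _))
    have hBa : ∀ x ∈ B, a x ∈ B := by
      refine h.stab pa a.injective hB hc.ge hTB ?_
      intro x hx
      rcases mem_insert.1 hx with rfl | hx
      · rw [hao]; exact hoB
      rcases mem_insert.1 hx with rfl | hx
      · rw [(hα _).2 (Or.inr rfl)]; exact hαB
      · exact hTB (mem_insert_of_mem (mem_insert_of_mem (hZa x hx)))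
    have := (even_two a haa o α hoα hα B hBa).2 ⟨fun _ => hαB, fun _ => hoB⟩
    rw [h.card B hB] at this
    obtain ⟨j, rfl⟩ := this
    rw [Nat.ModEq]
    omega
  · by_cases hk : Even k
    · right
      refine ⟨by simp, ?_⟩
      obtain ⟨φ, h0, h1, haφ, hbφ, hinj, hform, hpos⟩ := orbit_param a b ha hb α
        ((hα α).2 (Or.inr rfl)) (fun j hj => ((hα _).1 hj).resolve_left (hne j))
      have hφo : ∀ i, φ i ≠ o := by
        intro i
        obtain ⟨j, hj⟩ := hform i
        rw [hj]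
        exact hne j
      by_contra hcon
      push Not at hcon
      have hφ1 : φ 1 = β := ((hβ _).1 h1).resolve_left (hφo 1)
      obtain ⟨B, hB, hoB, hall⟩ := chain_two h hk a b haa hbb pa pb o φ hφo
        (fun x => by rw [h0, hα]) (fun x => by rw [hφ1, hβ]) haφ hbφ
        (Function.minimalPeriod (b * a) α) (by omega) hinj
      obtain ⟨S, hS, hSc, hSφ⟩ := card_ge_of_range hinj hall
      have h3 : (insert o S).card ≤ B.card := card_le_card (insert_subset hoB hS)
      rw [card_insert_of_notMem (fun hc => by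
        obtain ⟨i, hi⟩ := hSφ o hc
        exact hφo i hi), h.card B hB] at h3
      omega
    · left
      rw [Nat.not_even_iff_odd] at hk
      obtain ⟨j, rfl⟩ := hk
      rw [Nat.ModEq]
      omega

end Pool.Agent.Helper40K9.SR
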