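import Pool.Agent.Helper40K9.SR.Abel

/-! Steiner systems and reflections: the projective line -/

set_option autoImplicit false
set_option linter.unusedSectionVars false

open Finset

namespace Pool.Agent.Helper40K9.SR

section full

variable {X : Type*} [DecidableEq X]

/-- a `σ`-invariant set with `t + 1` elements containing the two fixed points of `σ` is contained in a
`σ`-invariant block -/
lemma full {t k : ℕ} {𝓑 : Set (Finset X)} (h : IsSteiner t k 𝓑) (hk : Even k) (σ : X → X)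
    (hσ : ∀ x, σ (σ x) = x) (pσ : Pres 𝓑 σ) (x y : X) (hxy : x ≠ y)
    (hf : ∀ z, σ z = z ↔ z = x ∨ z = y) (S : Finset X) (hS : ∀ z ∈ S, σ z ∈ S) (hx : x ∈ S)
    (hy : y ∈ S) (hc : S.card = t + 1) : ∃ B ∈ 𝓑, S ⊆ B ∧ ∀ z ∈ B, σ z ∈ B := by
  have hc' : (S.erase y).card = t := by rw [card_erase_of_mem hy, hc]; rfl
  obtain ⟨B, ⟨hB, hTB⟩, -⟩ := h.unique _ hc'
  have hinv : ∀ z ∈ B, σ z ∈ B := by
    refine h.stab pσ (image_invol_mem σ hσ) hB hc'.ge hTB ?_
    intro z hz
    rw [mem_erase] at hz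
    refine hTB (mem_erase.2 ⟨fun hc => hz.1 ?_, hS z hz.2⟩)
    rw [← hσ z, hc]
    exact (hf y).2 (Or.inr rfl)
  have hxB : x ∈ B := hTB (mem_erase.2 ⟨hxy, hx⟩)
  have hyB : y ∈ B := ((even_two σ hσ x y hxy hf B hinv).1 (by rwa [h.card B hB])).1 hxB
  refine ⟨B, hB, fun z hz => ?_, hinv⟩
  by_cases hzy : z = y
  · rw [hzy]; exact hyB
  · exact hTB (mem_erase.2 ⟨hzy, hz⟩)

end full

variable {F : Type*} [Field F] [DecidableEq F]

/-- `x ↦ c / x` on the projective line -/
def iv (c : F) : Option F → Option F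
  | none => some 0
  | some x => if x = 0 then none else some (c / x)

@[simp] lemma iv_none (c : F) : iv c none = some 0 := rfl
@[simp] lemma iv_zero (c : F) : iv c (some 0) = none := by simp [iv]
lemma iv_some {c x : F} (hx : x ≠ 0) : iv c (some x) = some (c / x) := by simp [iv, hx]

lemma iv_iv {c : F} (hc : c ≠ 0) (x : Option F) : iv c (iv c x) = x := by
  cases x with
  | none => simp
  | some x =>
    by_cases hx : x = 0
    · subst hx; simp
    · rw [iv_some hx, iv_some (div_ne_zero hc hx)]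
      congr 1
      field_simp

lemma iv_fix {c : F} (hc : c ≠ 0) (x : Option F) :
    iv (c ^ 2) x = x ↔ x = some c ∨ x = some (-c) := by
  cases x with
  | none => simp
  | some x =>
    by_cases hx : x = 0
    · subst hx
      simp [hc.symm, hc]
    · rw [iv_some hx, Option.some.injEq, Option.some.injEq, Option.some.injEq, div_eq_iff hx,
        ← sq, sq_eq_sq_iff_eq_or_eq_neg, eq_comm (a := c), eq_comm (a := c)]
      constructor
      · rintro (h | h)
        · exact Or.inl h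
        · right; rw [← h]; ring
      · rintro (h | h)
        · exact Or.inl h
        · right; rw [h]; ring

/-- the set of the points `∞`, `0` and `ε a ^ j` for `(j, ε)` in `D` -/
def Q (a : F) (D : Finset (ℕ × F)) : Finset (Option F) :=
  insert none (insert (some 0) (D.image (fun p => some (p.2 * a ^ p.1))))

lemma none_mem_Q (a : F) (D : Finset (ℕ × F)) : none ∈ Q a D := mem_insert_self _ _
lemma zero_mem_Q (a : F) (D : Finset (ℕ × F)) : some 0 ∈ Q a D :=
  mem_insert_of_mem (mem_insert_self _ _)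
lemma mem_Q {a : F} {D : Finset (ℕ × F)} {j : ℕ} {ε : F} (h : (j, ε) ∈ D) :
    some (ε * a ^ j) ∈ Q a D :=
  mem_insert_of_mem (mem_insert_of_mem (mem_image_of_mem (fun p : ℕ × F => some (p.2 * a ^ p.1)) h))

lemma Q_cases {a : F} {D : Finset (ℕ × F)} {x : Option F} (h : x ∈ Q a D) :
    x = none ∨ x = some 0 ∨ ∃ j ε, (j, ε) ∈ D ∧ x = some (ε * a ^ j) := by
  rw [Q, mem_insert, mem_insert, mem_image] at h
  rcases h with h | h | ⟨⟨j, ε⟩, h, h'⟩
  · exact Or.inl h
  · exact Or.inr (Or.inl h)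
  · exact Or.inr (Or.inr ⟨j, ε, h, h'.symm⟩)

lemma Q_mono {a : F} {D E : Finset (ℕ × F)} (h : D ⊆ E) : Q a D ⊆ Q a E :=
  insert_subset_insert _ (insert_subset_insert _ (image_subset_image h))

lemma card_Q {a : F} (ha : a ≠ 0) {D : Finset (ℕ × F)}
    (hinj : Set.InjOn (fun p : ℕ × F => p.2 * a ^ p.1) D) (hne : ∀ p ∈ D, p.2 ≠ 0) :
    (Q a D).card = D.card + 2 := by
  rw [Q, card_insert_of_notMem, card_insert_of_notMem, card_image_of_injOn]
  · intro p hp q hq hpq
    exact hinj hp hq (Option.some.inj hpq)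
  · rw [mem_image]
    rintro ⟨p, hp, h⟩
    exact mul_ne_zero (hne p hp) (pow_ne_zero _ ha) (Option.some.inj h)
  · simp

/-- a primitive root -/
structure Prim (a : F) (m : ℕ) : Prop where
  m_pos : 0 < m
  ne : a ≠ 0
  neg : a ^ m = -1
  inj : ∀ i j : ℕ, a ^ i = a ^ j → i ≡ j [MOD 2 * m]
  gen : ∀ x : F, x ≠ 0 → ∃ n : ℕ, 1 ≤ n ∧ a ^ n = x

lemma exists_gen [Fintype F] : ∃ a : F, a ≠ 0 ∧
    (∀ i j : ℕ, a ^ i = a ^ j → i ≡ j [MOD Fintype.card F - 1]) ∧
    (∀ x : F, x ≠ 0 → ∃ n : ℕ, 1 ≤ n ∧ a ^ n = x) := by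
  obtain ⟨g, hg⟩ := IsCyclic.exists_generator (α := Fˣ)
  have ho : orderOf g = Fintype.card F - 1 := by
    rw [orderOf_eq_card_of_forall_mem_zpowers hg, Nat.card_eq_fintype_card, Fintype.card_units]
  refine ⟨g, g.ne_zero, fun i j hij => ?_, fun x hx => ?_⟩
  · rw [← ho]
    refine pow_eq_pow_iff_modEq.1 (Units.ext ?_)
    simpa using hij
  · obtain ⟨n, hn⟩ := (mem_powers_iff_mem_zpowers (x := g) (y := Units.mk0 x hx)).2 (hg _)
    have hn' : g ^ n = Units.mk0 x hx := hn
    refine ⟨n + orderOf g, ?_, ?_⟩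
    · have := orderOf_pos g
      omega
    · rw [pow_add, ← Units.val_pow_eq_pow_val g (orderOf g), pow_orderOf_eq_one, Units.val_one,
        mul_one, ← Units.val_pow_eq_pow_val, hn']
      rfl

lemma exists_prim [Fintype F] (hodd : Odd (Fintype.card F)) :
    ∃ (a : F) (m : ℕ), Prim a m ∧ Fintype.card F = 2 * m + 1 := by
  obtain ⟨a, ha, hinj, hgen⟩ := exists_gen (F := F)
  obtain ⟨m, hm⟩ := hodd
  have hq : 1 < Fintype.card F := Fintype.one_lt_card
  have hm0 : 0 < m := by omega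
  rw [show Fintype.card F - 1 = 2 * m by omega] at hinj
  have h1 : a ^ (2 * m) = 1 := by
    have := FiniteField.pow_card_sub_one_eq_one a ha
    rwa [show Fintype.card F - 1 = 2 * m by omega] at this
  have h2 : a ^ m * a ^ m = 1 := by rw [← pow_add, ← two_mul, h1]
  have h3 : a ^ m = -1 := by
    rcases mul_self_eq_one_iff.1 h2 with h | h
    · exfalso
      have h4 := hinj m 0 (by rw [h, pow_zero])
      have h5 := (Nat.modEq_zero_iff_dvd.1 h4)
      have := Nat.le_of_dvd hm0 h5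
      omega
    · exact h
  exact ⟨a, m, ⟨hm0, ha, h3, hinj, hgen⟩, hm⟩

/-- exponents incongruent modulo `m` -/
def Adm (m : ℕ) (J : Finset ℕ) : Prop := ∀ i ∈ J, ∀ j ∈ J, i ≡ j [MOD m] → i = j

lemma Prim.one_ne {a : F} {m : ℕ} (h : Prim a m) : (1 : F) ≠ -1 := by
  intro hc
  have h1 := h.inj m 0 (by rw [h.neg, ← hc, pow_zero])
  have h2 := Nat.le_of_dvd h.m_pos (Nat.modEq_zero_iff_dvd.1 h1)
  have := h.m_pos
  omega

lemma Prim.injOn {a : F} {m : ℕ} (h : Prim a m) {J : Finset ℕ} (hJ : Adm m J) :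
    Set.InjOn (fun p : ℕ × F => p.2 * a ^ p.1) (J ×ˢ ({1, -1} : Finset F) : Finset (ℕ × F)) := by
  have key : ∀ i ∈ J, ∀ j ∈ J, ∀ ε δ : F, (ε = 1 ∨ ε = -1) → (δ = 1 ∨ δ = -1) →
      ε * a ^ i = δ * a ^ j → i = j ∧ ε = δ := by
    intro i hi j hj ε δ hε hδ hij
    have hmod : ∀ i j : ℕ, a ^ i = a ^ j → i ≡ j [MOD m] := fun i j hh =>
      (h.inj i j hh).of_mul_left 2
    have h1 : i = j := by
      refine hJ i hi j hj ?_
      rcases hε with rfl | rfl <;> rcases hδ with rfl | rfl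
      · exact hmod _ _ (by simpa using hij)
      · have h2 := hmod i (m + j) (by rw [pow_add, h.neg]; simpa using hij)
        exact h2.trans (by rw [Nat.ModEq, Nat.add_mod_left])
      · have h2 := hmod (m + i) j (by rw [pow_add, h.neg]; simpa using hij)
        exact Nat.ModEq.trans (by rw [Nat.ModEq, Nat.add_mod_left]) h2
      · exact hmod _ _ (by simpa using hij)
    subst h1
    exact ⟨rfl, mul_right_cancel₀ (pow_ne_zero _ h.ne) hij⟩
  rintro ⟨i, ε⟩ hp ⟨j, δ⟩ hq hpq
  rw [coe_product, Set.mem_prod] at hp hq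
  simp only [mem_coe, mem_insert, mem_singleton] at hp hq
  obtain ⟨h1, h2⟩ := key i hp.1 j hq.1 ε δ hp.2 hq.2 hpq
  rw [h1, h2]

lemma sign_ne {ε : F} (h : ε ∈ ({1, -1} : Finset F)) : ε ≠ 0 := by
  rw [mem_insert, mem_singleton] at h
  rcases h with rfl | rfl
  · exact one_ne_zero
  · exact neg_ne_zero.2 one_ne_zero

end Pool.Agent.Helper40K9.SR
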